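import Pool.Agent.U29.EU.Stm
import Pool.Agent.N983.RT.Asm2

set_option autoImplicit false

/-! Project EU: assembly of the proof from its parts. -/

namespace Pool.Agent.U29.EU

open MeasureTheory Pool.Agent.N983.RT Pool.Agent.U136.DS

theorem mx_one_le (k l m : Wv) (hk : k ≠ 0) : 1 ≤ mx k l m := by
  have h1 : 1 ≤ nsq k := by
    have : ∃ i, k i ≠ 0 := by
      by_contra hc
      push Not at hc
      exact hk (funext hc)
    obtain ⟨i, hi⟩ := this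
    have h2 : (k i : ℝ) ^ 2 ≤ nsq k := by
      unfold nsq
      exact Finset.single_le_sum (f := fun i => (k i : ℝ) ^ 2) (fun j _ => sq_nonneg _)
        (Finset.mem_univ i)
    have h3 : (1 : ℝ) ≤ (k i : ℝ) ^ 2 := by
      have : 1 ≤ (k i) ^ 2 := by
        have := sq_pos_of_ne_zero hi
        omega
      exact_mod_cast this
    linarith
  exact h1.trans (le_max_left _ _)

/-- the exponent may be lowered, the constant too -/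
theorem finN_mono (lam : Wv → ℝ) (c₁ c₂ τ τ' : ℝ) (hc : c₂ ≤ c₁) (h0 : 0 ≤ c₁) (hτ : τ' ≤ τ)
    (h : FinN lam c₁ τ) : FinN lam c₂ τ' := by
  obtain ⟨R, hR⟩ := h
  refine ⟨R, fun k l hn => hR k l ?_⟩
  unfold near at hn ⊢
  split_ifs at hn with h1
  · rw [if_pos]
    · exact one_ne_zero
    · refine ⟨h1.1, h1.2.1, h1.2.2.1, h1.2.2.2.trans_le ?_⟩
      have h2 := mx_one_le k l (-(k + l)) h1.1
      calc c₂ * mx k l (-(k + l)) ^ (τ' / 2) ≤ c₁ * mx k l (-(k + l)) ^ (τ' / 2) :=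
            mul_le_mul_of_nonneg_right hc (Real.rpow_nonneg (by linarith) _)
        _ ≤ c₁ * mx k l (-(k + l)) ^ (τ / 2) :=
            mul_le_mul_of_nonneg_left (Real.rpow_le_rpow_of_exponent_le h2 (by linarith)) h0
  · exact absurd rfl hn

/-- the deterministic criterion, `5 < τ < 6` -/
theorem critE0 (hSUM : S_SUM) (hALG : S_ALG) (hRHS : S_RHS) (hODE : S_ODEE)
    (hCMP : S_CMPE) (hUNQ : S_UNQE) (hLIM : S_LIM) (hS3 : S_S3) (hS4 : S_S4) (hQB : S_QBE)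
    (hRB : S_RBE) (hDQ : S_DQ) (hNB : S_NBE) (hAPR : S_APRE) (lam : Wv → ℝ) (c₁ τ : ℝ)
    (hlam : Disp lam) (hc : 0 < c₁) (hτ : 5 < τ) (hτ' : τ < 6) (hfin : FinN lam c₁ τ) :
    GWPE lam := by
  intro u₀ hA hR
  have hest : ∀ N : ℝ, ∀ s : ℕ, 3 ≤ s → ∀ M ε : ℝ, 0 < ε → ∃ C : ℝ, ∀ ν, 0 ≤ ν → ν ≤ N →
      ∀ (n : ℕ) (u : Fld), Adm u →
      (∀ k, k ∉ cub n → u k = 0) → En 0 n u ≤ M →
        ‖form (hnf lam c₁ τ) s n u‖ ≤ ε * En s n u + C ∧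
        ‖dform (hnf lam c₁ τ) s n u (rhs (cutg n one) ν 1 u)‖ ≤ ε * En s n u + C ∧
        ‖form (near lam c₁ τ) s n u‖ ≤ C := by
    intro N s hs M ε hε
    obtain ⟨C₁, h1⟩ := hQB hS3 lam c₁ τ hc hτ hτ' s hs M ε hε
    obtain ⟨C₂, h2⟩ := hRB hS3 hS4 lam c₁ τ N hc hτ hτ' s hs M ε hε
    obtain ⟨C₃, h3⟩ := hNB lam c₁ τ hfin s M
    refine ⟨max C₁ (max C₂ C₃), fun ν h0 hN n u hu hn hM => ⟨?_, ?_, ?_⟩⟩
    · exact (h1 n u hu hn hM).trans (by linarith [le_max_left C₁ (max C₂ C₃)])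
    · exact (h2 ν h0 hN n u hu hn hM).trans
        (by linarith [(le_max_left C₂ C₃).trans (le_max_right C₁ (max C₂ C₃))])
    · exact (h3 n u hu hn hM).trans ((le_max_right C₂ C₃).trans (le_max_right C₁ (max C₂ C₃)))
  -- truncated systems
  have h1 : ∀ (ν : ℝ) (n : ℕ), 0 ≤ ν → ∃ u : ℝ → Fld, IsSolD (cutg n one) ν lam u ∧
      u 0 = cut n u₀ ∧ ∀ t, 0 ≤ t → ∀ k, k ∉ cub n → u t k = 0 :=
    fun ν n hν => hODE hALG ν lam n hν hlam u₀ hA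
  choose! U hUall using h1
  have hUsol : ∀ ν n, 0 ≤ ν → IsSolD (cutg n one) ν lam (U ν n) := fun ν n h => (hUall ν n h).1
  have hU0 : ∀ ν n, 0 ≤ ν → U ν n 0 = cut n u₀ := fun ν n h => (hUall ν n h).2.1
  have hUcub : ∀ ν n, 0 ≤ ν → ∀ t, 0 ≤ t → ∀ k, k ∉ cub n → U ν n t k = 0 :=
    fun ν n h => (hUall ν n h).2.2
  have hbd : ∀ N : ℝ, ∃ B : ℝ → ℕ → ℝ, ∀ ν, 0 ≤ ν → ν ≤ N → ∀ (T : ℝ) (s : ℕ) n t,
      0 ≤ t → t ≤ T → ∀ k i, (1 + nsq k) ^ s * ‖U ν n t k i‖ ≤ B T s := by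
    intro N
    have h2 : ∀ (s : ℕ) (T : ℝ), ∃ C : ℝ, ∀ ν, 0 ≤ ν → ν ≤ N →
        ∀ (n : ℕ) (u : ℝ → Fld), IsSolD (cutg n one) ν lam u → u 0 = cut n u₀ →
        (∀ t, 0 ≤ t → ∀ k, k ∉ cub n → u t k = 0) → ∀ t, 0 ≤ t → t ≤ T → En s n (u t) ≤ C :=
      fun s T => hAPR hSUM hALG lam c₁ τ N hlam hc (hest N) hDQ u₀ hA hR s T
    choose C hC using h2
    refine ⟨fun T s => Real.sqrt (2 ^ (2 * s) * (C 0 T + C (2 * s) T)),
      fun ν h0 hN T s n t ht hT k i => ?_⟩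
    exact asm_pt n s (U ν n t) (hUcub ν n h0 t ht) (C 0 T) (C (2 * s) T)
      (hC 0 T ν h0 hN n (U ν n) (hUsol ν n h0) (hU0 ν n h0) (hUcub ν n h0) t ht hT)
      (hC (2 * s) T ν h0 hN n (U ν n) (hUsol ν n h0) (hU0 ν n h0) (hUcub ν n h0) t ht hT) k i
  choose B hB using hbd
  -- solutions
  have hsol : ∀ N ν : ℝ, 0 ≤ ν → ν ≤ N → ∃ u : ℝ → Fld, IsSolD one ν lam u ∧ u 0 = u₀ ∧
      ∀ (T : ℝ) (s : ℕ) t, 0 ≤ t → t ≤ T → ∀ k i, (1 + nsq k) ^ s * ‖u t k i‖ ≤ B N T s :=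
    fun N ν h0 hN => hCMP hSUM hRHS ν lam h0 hlam u₀ hA hR (U ν) (fun n => hUsol ν n h0)
      (fun n => hU0 ν n h0) (B N) (hB N ν h0 hN)
  have hex : ∀ ν : ℝ, 0 ≤ ν → ∃ u : ℝ → Fld, IsSolD one ν lam u ∧ u 0 = u₀ := fun ν h0 => by
    obtain ⟨u, h, h', _⟩ := hsol ν ν h0 le_rfl
    exact ⟨u, h, h'⟩
  choose! u hu using hex
  have hubd : ∀ (N ν : ℝ), 0 ≤ ν → ν ≤ N → ∀ (T : ℝ) (s : ℕ) t, 0 ≤ t → t ≤ T → ∀ k i,
      (1 + nsq k) ^ s * ‖u ν t k i‖ ≤ B N T s := by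
    intro N ν h0 hN T s t ht hT k i
    obtain ⟨v, hv, hv0, hvb⟩ := hsol N ν h0 hN
    rw [hUNQ hSUM ν lam h0 hlam (u ν) v (hu ν h0).1 hv (by rw [(hu ν h0).2, hv0]) t ht]
    exact hvb T s t ht hT k i
  refine ⟨u, fun ν h0 => ⟨(hu ν h0).1, (hu ν h0).2, fun v hv hv0 t ht =>
    hUNQ hSUM ν lam h0 hlam v (u ν) hv (hu ν h0).1 (by rw [hv0, (hu ν h0).2]) t ht⟩,
    fun N T s => ⟨B N T s, fun ν h0 hN t ht hT k i => hubd N ν h0 hN T s t ht hT k i⟩, ?_⟩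
  intro T s
  obtain ⟨D, hD0, hD⟩ := hLIM hSUM lam hlam (B 1 T) T
  refine ⟨Real.sqrt (2 * |B 1 T (2 * s)| * D), fun ν h0 h1 t ht hT k i => ?_⟩
  have e1 : ‖u ν t k i - u 0 t k i‖ ≤ D * ν :=
    hD ν h0 h1 (u ν) (u 0) (hu ν h0).1 (hu 0 le_rfl).1 (by rw [(hu ν h0).2, (hu 0 le_rfl).2])
      (fun t' ht' hT' => ⟨fun s' k' i' => hubd 1 ν h0 h1 T s' t' ht' hT' k' i',
        fun s' k' i' => hubd 1 0 le_rfl zero_le_one T s' t' ht' hT' k' i'⟩) t ht hT k i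
  have e2 : (1 + nsq k) ^ (2 * s) * ‖u ν t k i - u 0 t k i‖ ≤ 2 * |B 1 T (2 * s)| := by
    have a1 := hubd 1 ν h0 h1 T (2 * s) t ht hT k i
    have a2 := hubd 1 0 le_rfl zero_le_one T (2 * s) t ht hT k i
    have a3 : ‖u ν t k i - u 0 t k i‖ ≤ ‖u ν t k i‖ + ‖u 0 t k i‖ := norm_sub_le _ _
    have a4 : 0 ≤ (1 + nsq k) ^ (2 * s) := pow_nonneg (by linarith [asm_nsq_nonneg k]) _
    calc (1 + nsq k) ^ (2 * s) * ‖u ν t k i - u 0 t k i‖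
        ≤ (1 + nsq k) ^ (2 * s) * (‖u ν t k i‖ + ‖u 0 t k i‖) := mul_le_mul_of_nonneg_left a3 a4
      _ = (1 + nsq k) ^ (2 * s) * ‖u ν t k i‖ + (1 + nsq k) ^ (2 * s) * ‖u 0 t k i‖ := by ring
      _ ≤ 2 * |B 1 T (2 * s)| := by linarith [le_abs_self (B 1 T (2 * s))]
  have a4 : 0 ≤ (1 + nsq k) ^ s := pow_nonneg (by linarith [asm_nsq_nonneg k]) _
  rw [← Real.sqrt_mul (by positivity)]
  apply Real.le_sqrt_of_sq_le
  calc ((1 + nsq k) ^ s * ‖u ν t k i - u 0 t k i‖) ^ 2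
      = ((1 + nsq k) ^ (2 * s) * ‖u ν t k i - u 0 t k i‖) * ‖u ν t k i - u 0 t k i‖ := by
        rw [pow_mul']; ring
    _ ≤ (2 * |B 1 T (2 * s)|) * (D * ν) :=
        mul_le_mul e2 e1 (norm_nonneg _) (by positivity)
    _ = 2 * |B 1 T (2 * s)| * D * ν := by ring

/-- the deterministic criterion -/
theorem critE (hSUM : S_SUM) (hALG : S_ALG) (hRHS : S_RHS) (hODE : S_ODEE)
    (hCMP : S_CMPE) (hUNQ : S_UNQE) (hLIM : S_LIM) (hS3 : S_S3) (hS4 : S_S4) (hQB : S_QBE)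
    (hRB : S_RBE) (hDQ : S_DQ) (hNB : S_NBE) (hAPR : S_APRE) (lam : Wv → ℝ) (c₁ τ : ℝ)
    (hlam : Disp lam) (hc : 0 < c₁) (hτ : 5 < τ) (hfin : FinN lam c₁ τ) : GWPE lam :=
  critE0 hSUM hALG hRHS hODE hCMP hUNQ hLIM hS3 hS4 hQB hRB hDQ hNB hAPR lam c₁
    (min τ (11 / 2)) hlam hc (lt_min hτ (by norm_num))
    (lt_of_le_of_lt (min_le_right _ _) (by norm_num))
    (finN_mono lam c₁ c₁ τ _ le_rfl hc.le (min_le_left _ _) hfin)

/-- amplitudes -/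
theorem fin_smul (lam : Wv → ℝ) (ε τ : ℝ) (hε : ε ≠ 0) (h : FinN lam 1 τ) :
    FinN (fun k => ε * lam k) |ε| τ := by
  have h0 : 0 < |ε| := abs_pos.2 hε
  obtain ⟨R, hR⟩ := h
  refine ⟨R, fun k l hn => hR k l ?_⟩
  intro hz
  apply hn
  have h1 : ∀ k l m, near (fun k => ε * lam k) |ε| τ k l m = near lam 1 τ k l m := by
    intro k l m
    unfold near
    have e1 : (|ε * lam k + ε * lam l + ε * lam m| < |ε| * mx k l m ^ (τ / 2)) =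
        (|lam k + lam l + lam m| < 1 * mx k l m ^ (τ / 2)) := by
      rw [show ε * lam k + ε * lam l + ε * lam m = ε * (lam k + lam l + lam m) by ring, abs_mul,
        one_mul]
      exact propext (mul_lt_mul_iff_right₀ h0)
    simp only [e1]
  rw [h1, hz]

theorem disp_smul' (lam : Wv → ℝ) (ε : ℝ) (h : Disp lam) : Disp (fun k => ε * lam k) := by
  obtain ⟨h1, q, C, h2⟩ := h
  refine ⟨fun k => by simp only [h1 k]; ring, q, |ε| * C, fun k => ?_⟩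
  rw [abs_mul, mul_assoc]
  exact mul_le_mul_of_nonneg_left (h2 k) (abs_nonneg _)

theorem mon_neg {d : ℕ} (hd : Odd d) (β : Mi d) (k : Wv) : mon β (-k) = -mon β k := by
  have h : ∀ i, (((-k) i : ℤ) : ℝ) ^ (β.1 i : ℕ) = (-1) ^ (β.1 i : ℕ) * (k i : ℝ) ^ (β.1 i : ℕ) := by
    intro i
    rw [Pi.neg_apply, Int.cast_neg, neg_pow]
  unfold mon
  rw [Finset.prod_congr rfl fun i _ => h i, Finset.prod_mul_distrib, Finset.prod_pow_eq_pow_sum,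
    β.2, hd.neg_one_pow]
  ring

theorem mon_le {d : ℕ} (β : Mi d) (k : Wv) : |mon β k| ≤ (1 + nsq k) ^ d := by
  unfold mon
  rw [Finset.abs_prod]
  have h : ∀ i, |(k i : ℝ) ^ (β.1 i : ℕ)| ≤ (1 + nsq k) ^ (β.1 i : ℕ) := by
    intro i
    rw [abs_pow]
    apply pow_le_pow_left₀ (abs_nonneg _)
    have h1 : (k i : ℝ) ^ 2 ≤ nsq k := by
      unfold nsq
      exact Finset.single_le_sum (f := fun i => (k i : ℝ) ^ 2) (fun j _ => sq_nonneg _)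
        (Finset.mem_univ i)
    nlinarith [abs_nonneg (k i : ℝ), sq_abs (k i : ℝ), sq_nonneg (|(k i : ℝ)| - 1)]
  calc ∏ i, |(k i : ℝ) ^ (β.1 i : ℕ)| ≤ ∏ i, (1 + nsq k) ^ (β.1 i : ℕ) :=
        Finset.prod_le_prod (fun _ _ => abs_nonneg _) fun i _ => h i
    _ = (1 + nsq k) ^ d := by rw [Finset.prod_pow_eq_pow_sum, β.2]

theorem disp_add (lam lam' : Wv → ℝ) (h : Disp lam) (h' : Disp lam') :
    Disp (fun k => lam k + lam' k) := by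
  obtain ⟨h1, q, C, h2⟩ := h
  obtain ⟨h1', q', C', h2'⟩ := h'
  refine ⟨fun k => by simp only [h1 k, h1' k]; ring, max q q', |C| + |C'|, fun k => ?_⟩
  have hn := asm_nsq_nonneg k
  have a1 : (1 + nsq k) ^ q ≤ (1 + nsq k) ^ max q q' :=
    pow_le_pow_right₀ (by linarith) (le_max_left _ _)
  have a2 : (1 + nsq k) ^ q' ≤ (1 + nsq k) ^ max q q' :=
    pow_le_pow_right₀ (by linarith) (le_max_right _ _)
  have a3 : 0 ≤ (1 + nsq k) ^ q := pow_nonneg (by linarith) _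
  have a4 : 0 ≤ (1 + nsq k) ^ q' := pow_nonneg (by linarith) _
  calc |lam k + lam' k| ≤ |lam k| + |lam' k| := abs_add_le _ _
    _ ≤ C * (1 + nsq k) ^ q + C' * (1 + nsq k) ^ q' := add_le_add (h2 k) (h2' k)
    _ ≤ |C| * (1 + nsq k) ^ q + |C'| * (1 + nsq k) ^ q' := by
        gcongr <;> exact le_abs_self _
    _ ≤ |C| * (1 + nsq k) ^ max q q' + |C'| * (1 + nsq k) ^ max q q' := by
        gcongr <;> simp
    _ = (|C| + |C'|) * (1 + nsq k) ^ max q q' := by ring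

theorem disp_pol {d : ℕ} (hd : Odd d) (c : Mi d → ℝ) : Disp (pol c) := by
  constructor
  · intro k
    unfold pol
    simp only [mon_neg hd, mul_neg, Finset.sum_neg_distrib]
  · refine ⟨d, ∑ β, |c β|, fun k => ?_⟩
    unfold pol
    calc |∑ β, c β * mon β k| ≤ ∑ β, |c β * mon β k| := Finset.abs_sum_le_sum_abs _ _
      _ ≤ ∑ β, |c β| * (1 + nsq k) ^ d := by
          refine Finset.sum_le_sum fun β _ => ?_
          rw [abs_mul]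
          exact mul_le_mul_of_nonneg_left (mon_le β k) (abs_nonneg _)
      _ = (∑ β, |c β|) * (1 + nsq k) ^ d := by rw [Finset.sum_mul]

/-- the assembly -/
theorem asmE (hSUM : S_SUM) (hALG : S_ALG) (hRHS : S_RHS) (hODE : S_ODEE)
    (hCMP : S_CMPE) (hUNQ : S_UNQE) (hLIM : S_LIM) (hS3 : S_S3) (hS4 : S_S4) (hQB : S_QBE)
    (hRB : S_RBE) (hDQ : S_DQ) (hNB : S_NBE) (hAPR : S_APRE) (hSLAB : S_SLAB) (hVEC : S_VEC)
    (hCNT : S_CNT) (hAE : S_AE) :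
    (∀ (lam : Wv → ℝ) (c₁ τ : ℝ), Disp lam → 0 < c₁ → 5 < τ → FinN lam c₁ τ → GWPE lam) ∧
    (∀ d : ℕ, Odd d → 3 ≤ d → ∀ lam : Wv → ℝ, ∀ᵐ c : Mi d → ℝ, ∀ c₁ τ : ℝ,
      τ < (d : ℝ) - 7 → FinN (fun k => lam k + pol c k) c₁ τ) ∧
    ∀ d : ℕ, Odd d → 13 ≤ d →
      (∀ᵐ c : Mi d → ℝ, ∀ ε : ℝ, ε ≠ 0 → GWPE (fun k => ε * pol c k)) ∧
      ∀ lam : Wv → ℝ, Disp lam → ∀ᵐ c : Mi d → ℝ, GWPE (fun k => lam k + pol c k) := by
  have h := critE hSUM hALG hRHS hODE hCMP hUNQ hLIM hS3 hS4 hQB hRB hDQ hNB hAPR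
  have hae := hAE hSLAB hVEC hCNT
  refine ⟨h, hae, fun d hd h13 => ?_⟩
  have h13' : (13 : ℝ) ≤ d := by exact_mod_cast h13
  refine ⟨?_, fun lam hlam => ?_⟩
  · filter_upwards [hae d hd (by omega) (fun _ => 0)] with c hc
    intro ε hε
    have h1 : FinN (pol c) 1 (11 / 2) := by simpa using hc 1 (11 / 2) (by linarith)
    exact h _ |ε| (11 / 2) (disp_smul' _ ε (disp_pol hd c)) (abs_pos.2 hε) (by norm_num)
      (fin_smul _ ε _ hε h1)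
  · filter_upwards [hae d hd (by omega) lam] with c hc
    exact h _ 1 (11 / 2) (disp_add _ _ hlam (disp_pol hd c)) one_pos (by norm_num)
      (hc 1 (11 / 2) (by linarith))

end Pool.Agent.U29.EU
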