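import Pool.Agent.U136.DS.Stm

set_option autoImplicit false

/-!
Project EU: the Euler equations on the torus `(ℝ / 2πℤ) ^ 3` with a generic local dispersive term
(a constant coefficient differential operator of odd order `d ≥ 13`). Statements of the parts of the
proof. The definitions `Wv, Fld, Adm, Rapid, rhs, cutg, cut, cub, En, Er, form, Tri, nsq, mx` are
those of `Pool.Agent.N983.RT`, and `one, rhsD, IsSolD, Disp, near, far, hnf, dform` those of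
`Pool.Agent.U136.DS`.
-/

namespace Pool.Agent.U29.EU

open MeasureTheory Pool.Agent.N983.RT Pool.Agent.U136.DS

/-- multi-indices of degree `d` -/
abbrev Mi (d : ℕ) : Type := {β : Fin 3 → Fin (d + 1) // ∑ i, (β i : ℕ) = d}

/-- the monomial `k ^ β` -/
def mon {d : ℕ} (β : Mi d) (k : Wv) : ℝ := ∏ i, (k i : ℝ) ^ (β.1 i : ℕ)

/-- the homogeneous polynomial of degree `d` with coefficients `c` -/
def pol {d : ℕ} (c : Mi d → ℝ) (k : Wv) : ℝ := ∑ β, c β * mon β k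

/-- all triads `k + l + m = 0` of nonzero wave vectors outside a finite set are far from resonance:
`|λ_k + λ_l + λ_m| ≥ c₁ max(|k|, |l|, |m|) ^ τ` -/
def FinN (lam : Wv → ℝ) (c₁ τ : ℝ) : Prop := ∃ R : ℕ, ∀ k l : Wv,
  near lam c₁ τ k l (-(k + l)) ≠ 0 → k ∈ cub R ∧ l ∈ cub R

/-- for all smooth data there are global smooth solutions for all viscosities `ν ≥ 0`, they are
unique, bounded uniformly in `ν`, and converge to the solution without viscosity as `ν → 0` -/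
def GWPE (lam : Wv → ℝ) : Prop :=
  ∀ u₀ : Fld, Adm u₀ → Rapid u₀ → ∃ u : ℝ → ℝ → Fld,
    (∀ ν, 0 ≤ ν → IsSolD one ν lam (u ν) ∧ u ν 0 = u₀ ∧
      ∀ v : ℝ → Fld, IsSolD one ν lam v → v 0 = u₀ → ∀ t, 0 ≤ t → v t = u ν t) ∧
    (∀ (N T : ℝ) (s : ℕ), ∃ C : ℝ, ∀ ν, 0 ≤ ν → ν ≤ N → ∀ t, 0 ≤ t → t ≤ T → ∀ k i,
      (1 + nsq k) ^ s * ‖u ν t k i‖ ≤ C) ∧
    ∀ (T : ℝ) (s : ℕ), ∃ C : ℝ, ∀ ν, 0 ≤ ν → ν ≤ 1 → ∀ t, 0 ≤ t → t ≤ T → ∀ k i,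
      (1 + nsq k) ^ s * ‖u ν t k i - u 0 t k i‖ ≤ C * Real.sqrt ν

/-! Solutions. -/

/-- (ODEE) the truncated systems have global solutions -/
def S_ODEE : Prop := S_ALG → ∀ (ν : ℝ) (lam : Wv → ℝ) (n : ℕ), 0 ≤ ν → Disp lam →
  ∀ u₀ : Fld, Adm u₀ →
    ∃ u : ℝ → Fld, IsSolD (cutg n one) ν lam u ∧ u 0 = cut n u₀ ∧
      ∀ t, 0 ≤ t → ∀ k, k ∉ cub n → u t k = 0

/-- (CMPE) passage to the limit, for a given bound -/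
def S_CMPE : Prop := S_SUM → S_RHS → ∀ (ν : ℝ) (lam : Wv → ℝ), 0 ≤ ν → Disp lam →
  ∀ u₀ : Fld, Adm u₀ → Rapid u₀ → ∀ U : ℕ → ℝ → Fld, (∀ n, IsSolD (cutg n one) ν lam (U n)) →
  (∀ n, U n 0 = cut n u₀) →
  ∀ B : ℝ → ℕ → ℝ,
  (∀ (T : ℝ) (s : ℕ) n t, 0 ≤ t → t ≤ T → ∀ k i, (1 + nsq k) ^ s * ‖U n t k i‖ ≤ B T s) →
    ∃ u : ℝ → Fld, IsSolD one ν lam u ∧ u 0 = u₀ ∧
      ∀ (T : ℝ) (s : ℕ) t, 0 ≤ t → t ≤ T → ∀ k i, (1 + nsq k) ^ s * ‖u t k i‖ ≤ B T s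

/-- (UNQE) uniqueness -/
def S_UNQE : Prop := S_SUM → ∀ (ν : ℝ) (lam : Wv → ℝ), 0 ≤ ν → Disp lam →
  ∀ u v : ℝ → Fld, IsSolD one ν lam u → IsSolD one ν lam v → u 0 = v 0 → ∀ t, 0 ≤ t → u t = v t

/-- (LIM) the limit of small viscosity -/
def S_LIM : Prop := S_SUM → ∀ (lam : Wv → ℝ), Disp lam → ∀ (Cs : ℕ → ℝ) (T : ℝ), ∃ D : ℝ,
  0 ≤ D ∧ ∀ ν, 0 ≤ ν → ν ≤ 1 → ∀ u v : ℝ → Fld, IsSolD one ν lam u → IsSolD one 0 lam v →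
    u 0 = v 0 → (∀ t, 0 ≤ t → t ≤ T → Dcy Cs (u t) ∧ Dcy Cs (v t)) →
      ∀ t, 0 ≤ t → t ≤ T → ∀ k i, ‖u t k i - v t k i‖ ≤ D * ν

/-! The normal form. -/

/-- (QBE) the correction of the Sobolev norms is small -/
def S_QBE : Prop := S_S3 → ∀ (lam : Wv → ℝ) (c₁ τ : ℝ), 0 < c₁ → 5 < τ → τ < 6 →
  ∀ s : ℕ, 3 ≤ s → ∀ M ε : ℝ, 0 < ε → ∃ C : ℝ, ∀ (n : ℕ) (u : Fld), Adm u →
    (∀ k, k ∉ cub n → u k = 0) → En 0 n u ≤ M → ‖form (hnf lam c₁ τ) s n u‖ ≤ ε * En s n u + C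

/-- (RBE) the remainder of the normal form -/
def S_RBE : Prop := S_S3 → S_S4 → ∀ (lam : Wv → ℝ) (c₁ τ N : ℝ), 0 < c₁ → 5 < τ → τ < 6 →
  ∀ s : ℕ, 3 ≤ s → ∀ M ε : ℝ, 0 < ε → ∃ C : ℝ, ∀ ν, 0 ≤ ν → ν ≤ N → ∀ (n : ℕ) (u : Fld), Adm u →
    (∀ k, k ∉ cub n → u k = 0) → En 0 n u ≤ M →
      ‖dform (hnf lam c₁ τ) s n u (rhs (cutg n one) ν 1 u)‖ ≤ ε * En s n u + C

/-- (NBE) the near-resonant triads -/
def S_NBE : Prop := ∀ (lam : Wv → ℝ) (c₁ τ : ℝ), FinN lam c₁ τ → ∀ (s : ℕ) (M : ℝ), ∃ C : ℝ,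
  ∀ (n : ℕ) (u : Fld), Adm u → (∀ k, k ∉ cub n → u k = 0) → En 0 n u ≤ M →
      ‖form (near lam c₁ τ) s n u‖ ≤ C

/-- (APRE) a priori bounds for the truncated systems, uniform in the viscosity -/
def S_APRE : Prop := S_SUM → S_ALG → ∀ (lam : Wv → ℝ) (c₁ τ N : ℝ), Disp lam → 0 < c₁ →
  -- QBE, RBE, NBE for `lam`
  (∀ s : ℕ, 3 ≤ s → ∀ M ε : ℝ, 0 < ε → ∃ C : ℝ, ∀ ν, 0 ≤ ν → ν ≤ N → ∀ (n : ℕ) (u : Fld), Adm u →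
    (∀ k, k ∉ cub n → u k = 0) → En 0 n u ≤ M →
      ‖form (hnf lam c₁ τ) s n u‖ ≤ ε * En s n u + C ∧
      ‖dform (hnf lam c₁ τ) s n u (rhs (cutg n one) ν 1 u)‖ ≤ ε * En s n u + C ∧
      ‖form (near lam c₁ τ) s n u‖ ≤ C) →
  S_DQ →
  ∀ u₀ : Fld, Adm u₀ → Rapid u₀ → ∀ (s : ℕ) (T : ℝ), ∃ C : ℝ, ∀ ν, 0 ≤ ν → ν ≤ N →
    ∀ (n : ℕ) (u : ℝ → Fld), IsSolD (cutg n one) ν lam u → u 0 = cut n u₀ →
      (∀ t, 0 ≤ t → ∀ k, k ∉ cub n → u t k = 0) → ∀ t, 0 ≤ t → t ≤ T → En s n (u t) ≤ C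

/-! Generic polynomials. -/

/-- (SLAB) the measure of a slab -/
def S_SLAB : Prop := ∀ (ι : Type) [Fintype ι] (V : ι → ℝ) (a b h R : ℝ), 0 < a → 0 ≤ h → 0 ≤ R →
  (∃ i, a ≤ |V i|) → volume {c : ι → ℝ | (∀ i, |c i| ≤ R) ∧ |b + ∑ i, c i * V i| ≤ h} ≤
    ENNReal.ofReal ((2 * R) ^ (Fintype.card ι - 1) * (2 * h / a))

/-- (VEC) the vector of the monomials of a triad is long -/
def S_VEC : Prop := ∀ d : ℕ, Odd d → 3 ≤ d → ∃ κ : ℝ, 0 < κ ∧ ∀ k l m : Wv, k ≠ 0 → l ≠ 0 →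
  m ≠ 0 → k + l + m = 0 →
    ∃ β : Mi d, κ * mx k l m ^ (((d : ℝ) - 1) / 2) ≤ |mon β k + mon β l + mon β m|

/-- (CNT) summability over pairs of wave vectors -/
def S_CNT : Prop := ∀ q : ℝ, 6 < q → Summable fun p : Wv × Wv => (1 + nsq p.1 + nsq p.2) ^ (-q / 2)

/-- (AE) almost all polynomials have only finitely many near-resonant triads -/
def S_AE : Prop := S_SLAB → S_VEC → S_CNT → ∀ d : ℕ, Odd d → 3 ≤ d → ∀ lam : Wv → ℝ,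
  ∀ᵐ c : Mi d → ℝ, ∀ c₁ τ : ℝ, τ < (d : ℝ) - 7 → FinN (fun k => lam k + pol c k) c₁ τ

end Pool.Agent.U29.EU
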