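import Pool.Agent.U29.EU.Stm2
import Pool.Agent.U876.EU.APRE

set_option autoImplicit false

/-! (APRG) A priori bounds with growth rate, by a change in the proof of (APRE) of helper876. -/

namespace Pool.Agent.U29.EU

open Pool.Agent.N983.RT Pool.Agent.U136.DS Pool.Agent.U527.RT Pool.Agent.U741.DS
  Pool.Agent.U876.EU Set

/-- (APRG) a priori bounds for the truncated systems, uniform in the viscosity -/
theorem t_APRG : S_APRG := by
  intro hS hA lam c₁ τ N _ hc₁ hQ hDQ u₀ hadm hr s δ hδ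
  obtain ⟨M0, hM0, hI0⟩ := init_bound hS hr 0
  -- the energy
  have hE0 : ∀ ν, 0 ≤ ν → ∀ (n : ℕ) (u : ℝ → Fld), IsSolD (cutg n one) ν lam u →
      u 0 = cut n u₀ → (∀ t, 0 ≤ t → ∀ k, k ∉ cub n → u t k = 0) →
      ∀ t, 0 ≤ t → En 0 n (u t) ≤ M0 := by
    intro ν hν n u hu h0 hsupp t ht
    have h1 := gron (c := 0) (fun t ht => deriv_EnD hu 0 n ht) (fun t ht => by
      rw [(hA one n (u t) arr_one (hu.adm t ht) (hsupp t ht)).2]
      have h2 := Er_nonneg (((0 : ℕ) : ℝ) + 1) n (u t)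
      nlinarith [mul_nonneg hν h2]) t ht
    rw [zero_mul, Real.exp_zero, mul_one, h0] at h1
    exact h1.trans (hI0 n)
  -- the other norms
  have hE3 : ∀ s : ℕ, 3 ≤ s → ∃ C : ℝ, 0 ≤ C ∧ ∀ ν, 0 ≤ ν → ν ≤ N → ∀ (n : ℕ) (u : ℝ → Fld),
      IsSolD (cutg n one) ν lam u → u 0 = cut n u₀ →
      (∀ t, 0 ≤ t → ∀ k, k ∉ cub n → u t k = 0) → ∀ t, 0 ≤ t →
        En s n (u t) ≤ C * Real.exp (δ * t) := by
    intro s hs
    obtain ⟨M, hM, hI⟩ := init_bound hS hr s
    obtain ⟨C1, hC1⟩ := hQ s hs M0 (1 / 4) (by norm_num)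
    obtain ⟨C2, hC2⟩ := hQ s hs M0 (δ / 8) (by linarith)
    set K : ℝ := 2 * |C1| + 4 * |C2| / δ with hK
    have hC10 : 0 ≤ |C1| := abs_nonneg _
    have hC20 : 0 ≤ |C2| := abs_nonneg _
    have hK1 : 2 * |C1| ≤ K := by
      have : 0 ≤ 4 * |C2| / δ := by positivity
      linarith
    have hK2 : δ * K = δ * (2 * |C1|) + 4 * |C2| := by
      rw [hK]
      field_simp
    refine ⟨2 * (3 / 2 * |M| + 2 * |C1| + K), by have := abs_nonneg M; linarith,
      fun ν hν hνN n u hu h0 hsupp t ht => ?_⟩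
    have hB : ∀ t, 0 ≤ t → |(form (hnf lam c₁ τ) s n (u t)).re| ≤ 1 / 4 * En s n (u t) + |C1| ∧
        |(dform (hnf lam c₁ τ) s n (u t) (rhs (cutg n one) ν 1 (u t))).re| ≤
          δ / 8 * En s n (u t) + |C2| ∧
        (-Complex.I * form (near lam c₁ τ) s n (u t)).re ≤ |C2| := by
      intro t ht
      obtain ⟨h1, _, _⟩ := hC1 ν hν hνN n (u t) (hu.adm t ht) (hsupp t ht)
        (hE0 ν hν n u hu h0 hsupp t ht)
      obtain ⟨_, h2, h3⟩ := hC2 ν hν hνN n (u t) (hu.adm t ht) (hsupp t ht)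
        (hE0 ν hν n u hu h0 hsupp t ht)
      have h4 := le_abs_self C1
      have h5 := le_abs_self C2
      refine ⟨(Complex.abs_re_le_norm _).trans (h1.trans (by linarith)),
        (Complex.abs_re_le_norm _).trans (h2.trans (by linarith)), ?_⟩
      exact (re_I_le _).trans (h3.trans h5)
    have hEn : ∀ t, 0 ≤ En s n (u t) := fun t => by
      unfold En
      refine Finset.sum_nonneg fun k _ => mul_nonneg (pow_nonneg ?_ _)
        (Finset.sum_nonneg fun i _ => by positivity)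
      unfold nsq; positivity
    have hd : ∀ t, 0 ≤ t → HasDerivWithinAt
        (fun t => (En s n (u t) - 2 * (form (hnf lam c₁ τ) s n (u t)).re) + K)
        ((-2 * ν * Er ((s : ℝ) + 1) n (u t) + 2 * flux (cutg n one) s n (u t)) -
          2 * (-Complex.I * form (far lam c₁ τ) s n (u t) +
            dform (hnf lam c₁ τ) s n (u t) (rhs (cutg n one) ν 1 (u t))).re) (Ici 0) t := by
      intro t ht
      have h1 := deriv_EnD hu s n ht
      have h2 := hDQ lam c₁ τ ν hc₁ s n u hu hsupp t ht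
      have h3 := (Complex.reCLM.hasFDerivAt.comp_hasDerivWithinAt t h2)
      exact (h1.sub (h3.const_mul 2)).add_const _
    have hb : ∀ t, 0 ≤ t → (-2 * ν * Er ((s : ℝ) + 1) n (u t) +
        2 * flux (cutg n one) s n (u t)) -
          2 * (-Complex.I * form (far lam c₁ τ) s n (u t) +
            dform (hnf lam c₁ τ) s n (u t) (rhs (cutg n one) ν 1 (u t))).re ≤
        δ * ((En s n (u t) - 2 * (form (hnf lam c₁ τ) s n (u t)).re) + K) := by
      intro t ht
      have hz := (hu.adm t ht).zero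
      rw [(hA one n (u t) arr_one (hu.adm t ht) (hsupp t ht)).1 s, form_one lam c₁ τ s n hz,
        mul_add, Complex.add_re, Complex.add_re]
      obtain ⟨h1, h2, h3⟩ := hB t ht
      have h4 := abs_le.1 h1
      have h5 := abs_le.1 h2
      have h6 := Er_nonneg ((s : ℝ) + 1) n (u t)
      have h7 : 0 ≤ ν * Er ((s : ℝ) + 1) n (u t) := mul_nonneg hν h6
      have h8 : δ * (En s n (u t) / 2 - 2 * |C1| + K) ≤
          δ * ((En s n (u t) - 2 * (form (hnf lam c₁ τ) s n (u t)).re) + K) :=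
        mul_le_mul_of_nonneg_left (by linarith [h4.1, h4.2]) hδ.le
      have h9 : δ * (En s n (u t) / 2 - 2 * |C1| + K) = δ * En s n (u t) / 2 + 4 * |C2| := by
        linarith [hK2]
      have h10 := mul_nonneg hδ.le (hEn t)
      linarith [h4.1, h4.2, h5.1, h5.2]
    have h1 := gron hd hb t ht
    obtain ⟨h2, _, _⟩ := hB t ht
    obtain ⟨h3, _, _⟩ := hB 0 le_rfl
    have h4 := abs_le.1 h2
    have h5 := abs_le.1 h3
    have h6 : En s n (u 0) ≤ |M| := by
      rw [h0]
      exact (hI n).trans (le_abs_self M)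
    have h7 : (En s n (u 0) - 2 * (form (hnf lam c₁ τ) s n (u 0)).re) + K ≤
        3 / 2 * |M| + 2 * |C1| + K := by linarith [h5.1, h5.2]
    have h9 : ((En s n (u 0) - 2 * (form (hnf lam c₁ τ) s n (u 0)).re) + K) *
        Real.exp (δ * t) ≤ (3 / 2 * |M| + 2 * |C1| + K) * Real.exp (δ * t) :=
      mul_le_mul_of_nonneg_right h7 (Real.exp_pos _).le
    have h10 := h1.trans h9
    linarith [h4.1, h4.2]
  rcases Nat.lt_or_ge s 3 with h | h
  · obtain ⟨C, hC0, hC⟩ := hE3 3 le_rfl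
    refine ⟨|M0| + C, by positivity, fun ν hν hνN n u hu h0 hsupp t ht =>
      (En_le_three h n (u t)).trans ?_⟩
    have h1 := hE0 ν hν n u hu h0 hsupp t ht
    have h2 := hC ν hν hνN n u hu h0 hsupp t ht
    have h3 : 1 ≤ Real.exp (δ * t) := Real.one_le_exp (mul_nonneg hδ.le ht)
    have h4 := abs_nonneg M0
    have h5 : |M0| ≤ |M0| * Real.exp (δ * t) := le_mul_of_one_le_right h4 h3
    have h6 := le_abs_self M0
    linarith [add_mul |M0| C (Real.exp (δ * t))]
  · exact hE3 s h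

end Pool.Agent.U29.EU
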