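import Pool.Agent.U29.EU.Stm2
import Pool.Agent.U29.EU.Asm

set_option autoImplicit false

/-! Project EU: assembly with growth bounds. -/

namespace Pool.Agent.U29.EU

open MeasureTheory Pool.Agent.N983.RT Pool.Agent.U136.DS

/-- for all smooth data there are global smooth solutions for all viscosities `ν ≥ 0`, they are
unique, grow slower than every exponential in all Sobolev norms, uniformly in `ν ≤ N`, and converge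
to the solution without viscosity as `ν → 0` -/
def GWPG (lam : Wv → ℝ) : Prop :=
  ∀ u₀ : Fld, Adm u₀ → Rapid u₀ → ∃ u : ℝ → ℝ → Fld,
    (∀ ν, 0 ≤ ν → IsSolD one ν lam (u ν) ∧ u ν 0 = u₀ ∧
      ∀ v : ℝ → Fld, IsSolD one ν lam v → v 0 = u₀ → ∀ t, 0 ≤ t → v t = u ν t) ∧
    (∀ (N : ℝ) (s : ℕ) (δ : ℝ), 0 < δ → ∃ C : ℝ, ∀ ν, 0 ≤ ν → ν ≤ N → ∀ t, 0 ≤ t → ∀ k i,
      (1 + nsq k) ^ s * ‖u ν t k i‖ ≤ C * Real.exp (δ * t)) ∧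
    ∀ (T : ℝ) (s : ℕ), ∃ C : ℝ, ∀ ν, 0 ≤ ν → ν ≤ 1 → ∀ t, 0 ≤ t → t ≤ T → ∀ k i,
      (1 + nsq k) ^ s * ‖u ν t k i - u 0 t k i‖ ≤ C * Real.sqrt ν

/-- the deterministic criterion, `5 < τ < 6` -/
theorem critG0 (hSUM : S_SUM) (hALG : S_ALG) (hRHS : S_RHS) (hODE : S_ODEE)
    (hCMP : S_CMPE) (hUNQ : S_UNQE) (hLIM : S_LIM) (hS3 : S_S3) (hS4 : S_S4) (hQB : S_QBE)
    (hRB : S_RBE) (hDQ : S_DQ) (hNB : S_NBE) (hAPR : S_APRG) (lam : Wv → ℝ) (c₁ τ : ℝ)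
    (hlam : Disp lam) (hc : 0 < c₁) (hτ : 5 < τ) (hτ' : τ < 6) (hfin : FinN lam c₁ τ) :
    GWPG lam := by
  intro u₀ hA hR
  have hest : ∀ N : ℝ, ∀ s : ℕ, 3 ≤ s → ∀ M ε : ℝ, 0 < ε → ∃ C : ℝ, ∀ ν, 0 ≤ ν → ν ≤ N →
      ∀ (n : ℕ) (u : Fld), Adm u →
      (∀ k, k ∉ cub n → u k = 0) → En 0 n u ≤ M →
        ‖form (hnf lam c₁ τ) s n u‖ ≤ ε * En s n u + C ∧
        ‖dform (hnf lam c₁ τ) s n u (rhs (cutg n one) ν 1 u)‖ ≤ ε * En s n u + C ∧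
        ‖form (near lam c₁ τ) s n u‖ ≤ C := by
    intro N s hs M ε hε
    obtain ⟨C₁, h1⟩ := hQB hS3 lam c₁ τ hc hτ hτ' s hs M ε hε
    obtain ⟨C₂, h2⟩ := hRB hS3 hS4 lam c₁ τ N hc hτ hτ' s hs M ε hε
    obtain ⟨C₃, h3⟩ := hNB lam c₁ τ hfin s M
    refine ⟨max C₁ (max C₂ C₃), fun ν h0 hN n u hu hn hM => ⟨?_, ?_, ?_⟩⟩
    · exact (h1 n u hu hn hM).trans (by linarith [le_max_left C₁ (max C₂ C₃)])
    · exact (h2 ν h0 hN n u hu hn hM).trans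
        (by linarith [(le_max_left C₂ C₃).trans (le_max_right C₁ (max C₂ C₃))])
    · exact (h3 n u hu hn hM).trans ((le_max_right C₂ C₃).trans (le_max_right C₁ (max C₂ C₃)))
  -- truncated systems
  have h1 : ∀ (ν : ℝ) (n : ℕ), 0 ≤ ν → ∃ u : ℝ → Fld, IsSolD (cutg n one) ν lam u ∧
      u 0 = cut n u₀ ∧ ∀ t, 0 ≤ t → ∀ k, k ∉ cub n → u t k = 0 :=
    fun ν n hν => hODE hALG ν lam n hν hlam u₀ hA
  choose! U hUall using h1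
  have hUsol : ∀ ν n, 0 ≤ ν → IsSolD (cutg n one) ν lam (U ν n) := fun ν n h => (hUall ν n h).1
  have hU0 : ∀ ν n, 0 ≤ ν → U ν n 0 = cut n u₀ := fun ν n h => (hUall ν n h).2.1
  have hUcub : ∀ ν n, 0 ≤ ν → ∀ t, 0 ≤ t → ∀ k, k ∉ cub n → U ν n t k = 0 :=
    fun ν n h => (hUall ν n h).2.2
  have hbd : ∀ (N δ : ℝ), 0 < δ → ∃ B : ℕ → ℝ, ∀ ν, 0 ≤ ν → ν ≤ N → ∀ (T : ℝ) (s : ℕ) n t,
      0 ≤ t → t ≤ T → ∀ k i, (1 + nsq k) ^ s * ‖U ν n t k i‖ ≤ B s * Real.exp (δ * T) := by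
    intro N δ hδ
    have h2 : ∀ (s : ℕ), ∃ C : ℝ, 0 ≤ C ∧ ∀ ν, 0 ≤ ν → ν ≤ N →
        ∀ (n : ℕ) (u : ℝ → Fld), IsSolD (cutg n one) ν lam u → u 0 = cut n u₀ →
        (∀ t, 0 ≤ t → ∀ k, k ∉ cub n → u t k = 0) → ∀ t, 0 ≤ t →
          En s n (u t) ≤ C * Real.exp (2 * δ * t) :=
      fun s => hAPR hSUM hALG lam c₁ τ N hlam hc (hest N) hDQ u₀ hA hR s (2 * δ) (by linarith)
    choose C hC0 hC using h2
    refine ⟨fun s => Real.sqrt (2 ^ (2 * s) * (C 0 + C (2 * s))),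
      fun ν h0 hN T s n t ht hT k i => ?_⟩
    have h3 := asm_pt n s (U ν n t) (hUcub ν n h0 t ht) (C 0 * Real.exp (2 * δ * t))
      (C (2 * s) * Real.exp (2 * δ * t))
      (hC 0 ν h0 hN n (U ν n) (hUsol ν n h0) (hU0 ν n h0) (hUcub ν n h0) t ht)
      (hC (2 * s) ν h0 hN n (U ν n) (hUsol ν n h0) (hU0 ν n h0) (hUcub ν n h0) t ht) k i
    refine h3.trans ?_
    have e1 : (2 : ℝ) ^ (2 * s) * (C 0 * Real.exp (2 * δ * t) + C (2 * s) * Real.exp (2 * δ * t)) =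
        2 ^ (2 * s) * (C 0 + C (2 * s)) * (Real.exp (δ * t)) ^ 2 := by
      rw [← Real.exp_nat_mul]
      push_cast
      rw [show 2 * (δ * t) = 2 * δ * t by ring]
      ring
    rw [e1, Real.sqrt_mul (by have := hC0 0; have := hC0 (2 * s); positivity),
      Real.sqrt_sq (Real.exp_pos _).le]
    exact mul_le_mul_of_nonneg_left (Real.exp_le_exp.2 (mul_le_mul_of_nonneg_left hT hδ.le))
      (Real.sqrt_nonneg _)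
  choose! B hB using hbd
  -- solutions
  have hsol : ∀ N δ : ℝ, 0 < δ → ∀ ν : ℝ, 0 ≤ ν → ν ≤ N → ∃ u : ℝ → Fld, IsSolD one ν lam u ∧
      u 0 = u₀ ∧ ∀ (T : ℝ) (s : ℕ) t, 0 ≤ t → t ≤ T → ∀ k i,
        (1 + nsq k) ^ s * ‖u t k i‖ ≤ B N δ s * Real.exp (δ * T) :=
    fun N δ hδ ν h0 hN => hCMP hSUM hRHS ν lam h0 hlam u₀ hA hR (U ν) (fun n => hUsol ν n h0)
      (fun n => hU0 ν n h0) (fun T s => B N δ s * Real.exp (δ * T)) (hB N δ hδ ν h0 hN)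
  have hex : ∀ ν : ℝ, 0 ≤ ν → ∃ u : ℝ → Fld, IsSolD one ν lam u ∧ u 0 = u₀ := fun ν h0 => by
    obtain ⟨u, h, h', _⟩ := hsol ν 1 one_pos ν h0 le_rfl
    exact ⟨u, h, h'⟩
  choose! u hu using hex
  have hubd : ∀ (N δ : ℝ), 0 < δ → ∀ ν : ℝ, 0 ≤ ν → ν ≤ N → ∀ (T : ℝ) (s : ℕ) t, 0 ≤ t → t ≤ T →
      ∀ k i, (1 + nsq k) ^ s * ‖u ν t k i‖ ≤ B N δ s * Real.exp (δ * T) := by
    intro N δ hδ ν h0 hN T s t ht hT k i
    obtain ⟨v, hv, hv0, hvb⟩ := hsol N δ hδ ν h0 hN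
    rw [hUNQ hSUM ν lam h0 hlam (u ν) v (hu ν h0).1 hv (by rw [(hu ν h0).2, hv0]) t ht]
    exact hvb T s t ht hT k i
  refine ⟨u, fun ν h0 => ⟨(hu ν h0).1, (hu ν h0).2, fun v hv hv0 t ht =>
    hUNQ hSUM ν lam h0 hlam v (u ν) hv (hu ν h0).1 (by rw [hv0, (hu ν h0).2]) t ht⟩,
    fun N s δ hδ => ⟨B N δ s, fun ν h0 hN t ht k i => hubd N δ hδ ν h0 hN t s t ht le_rfl k i⟩, ?_⟩
  intro T s
  set Bd : ℕ → ℝ := fun s => B 1 1 s * Real.exp (1 * T) with hBd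
  have hubd1 : ∀ ν : ℝ, 0 ≤ ν → ν ≤ 1 → ∀ (s : ℕ) t, 0 ≤ t → t ≤ T →
      ∀ k i, (1 + nsq k) ^ s * ‖u ν t k i‖ ≤ Bd s :=
    fun ν h0 h1 s t ht hT k i => hubd 1 1 one_pos ν h0 h1 T s t ht hT k i
  obtain ⟨D, hD0, hD⟩ := hLIM hSUM lam hlam Bd T
  refine ⟨Real.sqrt (2 * |Bd (2 * s)| * D), fun ν h0 h1 t ht hT k i => ?_⟩
  have e1 : ‖u ν t k i - u 0 t k i‖ ≤ D * ν :=
    hD ν h0 h1 (u ν) (u 0) (hu ν h0).1 (hu 0 le_rfl).1 (by rw [(hu ν h0).2, (hu 0 le_rfl).2])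
      (fun t' ht' hT' => ⟨fun s' k' i' => hubd1 ν h0 h1 s' t' ht' hT' k' i',
        fun s' k' i' => hubd1 0 le_rfl zero_le_one s' t' ht' hT' k' i'⟩) t ht hT k i
  have e2 : (1 + nsq k) ^ (2 * s) * ‖u ν t k i - u 0 t k i‖ ≤ 2 * |Bd (2 * s)| := by
    have a1 := hubd1 ν h0 h1 (2 * s) t ht hT k i
    have a2 := hubd1 0 le_rfl zero_le_one (2 * s) t ht hT k i
    have a3 : ‖u ν t k i - u 0 t k i‖ ≤ ‖u ν t k i‖ + ‖u 0 t k i‖ := norm_sub_le _ _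
    have a4 : 0 ≤ (1 + nsq k) ^ (2 * s) := pow_nonneg (by linarith [asm_nsq_nonneg k]) _
    calc (1 + nsq k) ^ (2 * s) * ‖u ν t k i - u 0 t k i‖
        ≤ (1 + nsq k) ^ (2 * s) * (‖u ν t k i‖ + ‖u 0 t k i‖) := mul_le_mul_of_nonneg_left a3 a4
      _ = (1 + nsq k) ^ (2 * s) * ‖u ν t k i‖ + (1 + nsq k) ^ (2 * s) * ‖u 0 t k i‖ := by ring
      _ ≤ 2 * |Bd (2 * s)| := by linarith [le_abs_self (Bd (2 * s))]
  have a4 : 0 ≤ (1 + nsq k) ^ s := pow_nonneg (by linarith [asm_nsq_nonneg k]) _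
  rw [← Real.sqrt_mul (by positivity)]
  apply Real.le_sqrt_of_sq_le
  calc ((1 + nsq k) ^ s * ‖u ν t k i - u 0 t k i‖) ^ 2
      = ((1 + nsq k) ^ (2 * s) * ‖u ν t k i - u 0 t k i‖) * ‖u ν t k i - u 0 t k i‖ := by
        rw [pow_mul']; ring
    _ ≤ (2 * |Bd (2 * s)|) * (D * ν) :=
        mul_le_mul e2 e1 (norm_nonneg _) (by positivity)
    _ = 2 * |Bd (2 * s)| * D * ν := by ring


/-- the deterministic criterion -/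
theorem critG (hSUM : S_SUM) (hALG : S_ALG) (hRHS : S_RHS) (hODE : S_ODEE)
    (hCMP : S_CMPE) (hUNQ : S_UNQE) (hLIM : S_LIM) (hS3 : S_S3) (hS4 : S_S4) (hQB : S_QBE)
    (hRB : S_RBE) (hDQ : S_DQ) (hNB : S_NBE) (hAPR : S_APRG) (lam : Wv → ℝ) (c₁ τ : ℝ)
    (hlam : Disp lam) (hc : 0 < c₁) (hτ : 5 < τ) (hfin : FinN lam c₁ τ) : GWPG lam :=
  critG0 hSUM hALG hRHS hODE hCMP hUNQ hLIM hS3 hS4 hQB hRB hDQ hNB hAPR lam c₁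
    (min τ (11 / 2)) hlam hc (lt_min hτ (by norm_num))
    (lt_of_le_of_lt (min_le_right _ _) (by norm_num))
    (finN_mono lam c₁ c₁ τ _ le_rfl hc.le (min_le_left _ _) hfin)

/-- the assembly -/
theorem asmG (hSUM : S_SUM) (hALG : S_ALG) (hRHS : S_RHS) (hODE : S_ODEE)
    (hCMP : S_CMPE) (hUNQ : S_UNQE) (hLIM : S_LIM) (hS3 : S_S3) (hS4 : S_S4) (hQB : S_QBE)
    (hRB : S_RBE) (hDQ : S_DQ) (hNB : S_NBE) (hAPR : S_APRG) (hSLAB : S_SLAB) (hVEC : S_VEC)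
    (hCNT : S_CNT) (hAE : S_AE) :
    (∀ (lam : Wv → ℝ) (c₁ τ : ℝ), Disp lam → 0 < c₁ → 5 < τ → FinN lam c₁ τ → GWPG lam) ∧
    (∀ d : ℕ, Odd d → 3 ≤ d → ∀ lam : Wv → ℝ, ∀ᵐ c : Mi d → ℝ, ∀ c₁ τ : ℝ,
      τ < (d : ℝ) - 7 → FinN (fun k => lam k + pol c k) c₁ τ) ∧
    ∀ d : ℕ, Odd d → 13 ≤ d →
      (∀ᵐ c : Mi d → ℝ, ∀ ε : ℝ, ε ≠ 0 → GWPG (fun k => ε * pol c k)) ∧
      ∀ lam : Wv → ℝ, Disp lam → ∀ᵐ c : Mi d → ℝ, GWPG (fun k => lam k + pol c k) := by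
  have h := critG hSUM hALG hRHS hODE hCMP hUNQ hLIM hS3 hS4 hQB hRB hDQ hNB hAPR
  have hae := hAE hSLAB hVEC hCNT
  refine ⟨h, hae, fun d hd h13 => ?_⟩
  have h13' : (13 : ℝ) ≤ d := by exact_mod_cast h13
  refine ⟨?_, fun lam hlam => ?_⟩
  · filter_upwards [hae d hd (by omega) (fun _ => 0)] with c hc
    intro ε hε
    have h1 : FinN (pol c) 1 (11 / 2) := by simpa using hc 1 (11 / 2) (by linarith)
    exact h _ |ε| (11 / 2) (disp_smul' _ ε (disp_pol hd c)) (abs_pos.2 hε) (by norm_num)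
      (fin_smul _ ε _ hε h1)
  · filter_upwards [hae d hd (by omega) lam] with c hc
    exact h _ 1 (11 / 2) (disp_add _ _ hlam (disp_pol hd c)) one_pos (by norm_num)
      (hc 1 (11 / 2) (by linarith))

end Pool.Agent.U29.EU
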