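import Pool.Agent.U29.EU.Stm
import Pool.Agent.U451.DS.QB

set_option autoImplicit false

/-! (QBE) The correction is small, by a change in the proof of (QB) of helper451. -/

namespace Pool.Agent.U29.EU.QBx

open Pool.Agent.N983.RT Pool.Agent.U136.DS Pool.Agent.U451.DS

theorem t_QBE : Pool.Agent.U29.EU.S_QBE := by
  intro hS3 lam c₁ τ hc hτ3 hτ4 s hs M ε hε
  have hs2 : (3 : ℝ) ≤ (s : ℝ) := by exact_mod_cast hs
  set η : ℝ := (τ / 2 - 5 / 4) / 2 with hη
  have hηp : 0 < η := by rw [hη]; linarith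
  set p : ℝ := 2 * (s : ℝ) + 1 - τ with hp
  obtain ⟨C, hC0, hC⟩ := hS3 p η (by rw [hp]; linarith) hηp
  set b : ℝ := p / 2 + 3 / 4 + η with hb
  have hbs : b < (s : ℝ) := by rw [hb, hp, hη]; linarith
  have hb0 : 0 ≤ b := by rw [hb, hp, hη]; linarith
  set A : ℝ := 9 / c₁ * (C * Real.sqrt M) with hA
  have hA0 : 0 ≤ A := by positivity
  obtain ⟨C', hC'0, hC'⟩ := low_pow b s (ε / (A + 1)) hb0 hbs (by positivity)
  refine ⟨A * (C' * M), fun n u hu hcut hM => ?_⟩
  have hE0 : En 0 n u = ∑ k ∈ cub n, fl u k ^ 2 := by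
    unfold En
    exact Finset.sum_congr rfl fun k _ => by rw [fl_sq, pow_zero, one_mul]
  have hEs : En s n u = ∑ k ∈ cub n, nsq k ^ (s : ℝ) * fl u k ^ 2 := by
    unfold En
    exact Finset.sum_congr rfl fun k _ => by rw [fl_sq, Real.rpow_natCast]
  have hEs0 : 0 ≤ En s n u := by
    rw [hEs]
    exact Finset.sum_nonneg fun k _ =>
      mul_nonneg (Real.rpow_nonneg (nsq_nn k) _) (sq_nonneg _)
  have h1 := form_le lam c₁ τ hc s n u
  have h2 := hC n (fl u) (fl_nn u) (fl_zero u 0 hu.zero) (fun k hk => fl_zero u k (hcut k hk))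
  have hpe : p / 2 = (s : ℝ) + 1 / 2 - τ / 2 := by rw [hp]; ring
  rw [← hpe] at h1
  have h3 : ∑ k ∈ cub n, nsq k ^ b * fl u k ^ 2 ≤ ε / (A + 1) * En s n u + C' * M := by
    calc ∑ k ∈ cub n, nsq k ^ b * fl u k ^ 2
        ≤ ∑ k ∈ cub n, (ε / (A + 1) * (nsq k ^ (s : ℝ) * fl u k ^ 2) + C' * fl u k ^ 2) := by
          refine Finset.sum_le_sum fun k _ => ?_
          have := mul_le_mul_of_nonneg_right (hC' (nsq k) (nsq_nn k)) (sq_nonneg (fl u k))
          linarith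
      _ = ε / (A + 1) * En s n u + C' * En 0 n u := by
          rw [Finset.sum_add_distrib, ← Finset.mul_sum, ← Finset.mul_sum, hEs, hE0]
      _ ≤ ε / (A + 1) * En s n u + C' * M := by
          have := mul_le_mul_of_nonneg_left hM hC'0
          linarith
  have h4 : Real.sqrt (∑ k ∈ cub n, fl u k ^ 2) ≤ Real.sqrt M := by
    rw [← hE0]
    exact Real.sqrt_le_sqrt hM
  have h5 : 0 ≤ ∑ k ∈ cub n, nsq k ^ b * fl u k ^ 2 :=
    Finset.sum_nonneg fun k _ => mul_nonneg (Real.rpow_nonneg (nsq_nn k) _) (sq_nonneg _)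
  calc ‖form (hnf lam c₁ τ) s n u‖
      ≤ 9 / c₁ * ∑ k ∈ cub n, ∑ l ∈ cub n,
        mx k l (-(k + l)) ^ (p / 2) * (fl u k * fl u l * fl u (-(k + l))) := h1
    _ ≤ 9 / c₁ * (C * Real.sqrt (∑ k ∈ cub n, fl u k ^ 2) *
        ∑ k ∈ cub n, nsq k ^ b * fl u k ^ 2) :=
        mul_le_mul_of_nonneg_left h2 (by positivity)
    _ ≤ 9 / c₁ * (C * Real.sqrt M * ∑ k ∈ cub n, nsq k ^ b * fl u k ^ 2) := by
        apply mul_le_mul_of_nonneg_left _ (by positivity)
        apply mul_le_mul_of_nonneg_right _ h5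
        exact mul_le_mul_of_nonneg_left h4 hC0
    _ = A * ∑ k ∈ cub n, nsq k ^ b * fl u k ^ 2 := by rw [hA]; ring
    _ ≤ A * (ε / (A + 1) * En s n u + C' * M) := mul_le_mul_of_nonneg_left h3 hA0
    _ = (A / (A + 1)) * (ε * En s n u) + A * (C' * M) := by
        field_simp
    _ ≤ 1 * (ε * En s n u) + A * (C' * M) := by
        have h6 : A / (A + 1) ≤ 1 := by
          rw [div_le_one (by positivity)]; linarith
        have h7 := mul_le_mul_of_nonneg_right h6 (mul_nonneg hε.le hEs0)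
        linarith
    _ = ε * En s n u + A * (C' * M) := by rw [one_mul]

end Pool.Agent.U29.EU.QBx
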