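import Pool.Agent.U29.EU.Stm

/-! Project DS, package RB: the remainder of the normal form. -/

set_option autoImplicit false
set_option maxHeartbeats 1000000

namespace Pool.Agent.U29.EU.RBx

open Pool.Agent.N983.RT Pool.Agent.U136.DS Finset

theorem nsq_nonneg (k : Wv) : 0 ≤ nsq k := Finset.sum_nonneg fun _ _ => sq_nonneg _

theorem nsq_neg (k : Wv) : nsq (-k) = nsq k := by
  unfold nsq; simp

theorem le_nsq (k : Wv) (i : Fin 3) : (k i : ℝ) ^ 2 ≤ nsq k :=
  Finset.single_le_sum (f := fun i => (k i : ℝ) ^ 2) (fun _ _ => sq_nonneg _) (Finset.mem_univ i)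

theorem abs_le_sqrt (k : Wv) (i : Fin 3) : |(k i : ℝ)| ≤ Real.sqrt (nsq k) :=
  Real.abs_le_sqrt (le_nsq k i)

theorem one_le_nsq {k : Wv} (hk : k ≠ 0) : 1 ≤ nsq k := by
  obtain ⟨i, hi⟩ := Function.ne_iff.mp hk
  have h0 : k i ≠ 0 := hi
  have h1 : (1 : ℤ) ≤ (k i) ^ 2 := by
    have := sq_nonneg (k i)
    have h2 : (k i) ^ 2 ≠ 0 := pow_ne_zero 2 h0
    omega
  exact le_trans (by exact_mod_cast h1) (le_nsq k i)

theorem le_mx1 (k l m : Wv) : nsq k ≤ mx k l m := le_max_left _ _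
theorem le_mx2 (k l m : Wv) : nsq l ≤ mx k l m := (le_max_left _ _).trans (le_max_right _ _)
theorem le_mx3 (k l m : Wv) : nsq m ≤ mx k l m := (le_max_right _ _).trans (le_max_right _ _)
theorem mx_nonneg (k l m : Wv) : 0 ≤ mx k l m := (nsq_nonneg k).trans (le_mx1 k l m)
theorem mx_12 (k l m : Wv) : mx k l m = mx l k m := max_left_comm _ _ _
theorem mx_13 (k l m : Wv) : mx k l m = mx m l k := by
  unfold mx
  rw [← max_assoc, max_comm (max (nsq k) (nsq l)) (nsq m), max_comm (nsq k) (nsq l)]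

/-- The coefficients. -/
theorem coef {lam : Wv → ℝ} {c₁ τ : ℝ} (hc : 0 < c₁) (s : ℕ) (i : Fin 3) (k l : Wv) :
    |hnf lam c₁ τ k l (-(k + l)) * ((l i : ℝ) * nsq (k + l) ^ s)| ≤
      c₁⁻¹ * mx k l (-(k + l)) ^ ((s : ℝ) + 1 / 2 - τ / 2) := by
  unfold hnf far
  split_ifs with h
  · obtain ⟨hk, hl, hm, hL⟩ := h
    set w := mx k l (-(k + l)) with hw
    have hw1 : 1 ≤ w := (one_le_nsq hk).trans (le_mx1 k l _)
    have hw0 : 0 < w := by linarith
    have e1 : |(1 : ℝ) / (lam k + lam l + lam (-(k + l)))| ≤ c₁⁻¹ * w ^ (-(τ / 2)) := by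
      rw [abs_div, abs_one, Real.rpow_neg hw0.le, ← mul_inv, one_div]
      exact inv_anti₀ (by positivity) hL
    have e2 : |(l i : ℝ)| ≤ w ^ (1 / 2 : ℝ) := by
      rw [← Real.sqrt_eq_rpow]
      exact (abs_le_sqrt l i).trans (Real.sqrt_le_sqrt (le_mx2 k l _))
    have e3 : |nsq (k + l) ^ s| ≤ w ^ (s : ℝ) := by
      rw [abs_of_nonneg (pow_nonneg (nsq_nonneg _) _), Real.rpow_natCast]
      refine pow_le_pow_left₀ (nsq_nonneg _) ?_ _
      rw [← nsq_neg]
      exact le_mx3 k l _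
    have e4 : w ^ ((s : ℝ) + 1 / 2 - τ / 2) = w ^ (-(τ / 2)) * (w ^ (1 / 2 : ℝ) * w ^ (s : ℝ)) := by
      rw [← Real.rpow_add hw0, ← Real.rpow_add hw0]
      congr 1
      ring
    rw [abs_mul, abs_mul, e4, ← mul_assoc c₁⁻¹]
    exact mul_le_mul e1 (mul_le_mul e2 e3 (abs_nonneg _) (by positivity)) (by positivity)
      (by positivity)
  · rw [zero_div, zero_mul, abs_zero]
    exact mul_nonneg (by positivity) (Real.rpow_nonneg (mx_nonneg _ _ _) _)

/-- the size of a Fourier coefficient -/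
noncomputable def fu (u : Fld) (k : Wv) : ℝ := Real.sqrt (∑ i, ‖u k i‖ ^ 2)

theorem fu_nonneg (u : Fld) (k : Wv) : 0 ≤ fu u k := Real.sqrt_nonneg _

theorem fu_sq (u : Fld) (k : Wv) : fu u k ^ 2 = ∑ i, ‖u k i‖ ^ 2 :=
  Real.sq_sqrt (Finset.sum_nonneg fun _ _ => sq_nonneg _)

theorem le_fu (u : Fld) (k : Wv) (i : Fin 3) : ‖u k i‖ ≤ fu u k := by
  refine Real.le_sqrt_of_sq_le ?_
  exact Finset.single_le_sum (f := fun i => ‖u k i‖ ^ 2) (fun _ _ => sq_nonneg _)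
    (Finset.mem_univ i)

theorem fu_zero {u : Fld} {k : Wv} (h : u k = 0) : fu u k = 0 := by
  unfold fu; simp [h]

theorem mem_cub_neg {n : ℕ} {k : Wv} (h : -k ∈ cub n) : k ∈ cub n := by
  unfold cub at *
  rw [Fintype.mem_piFinset] at *
  intro i
  have := h i
  rw [Finset.mem_Icc] at *
  simp only [Pi.neg_apply] at this
  omega

theorem dt_le (a : Fin 3 → ℂ) (m : Wv) (A : ℝ) (hA : ∀ i, ‖a i‖ ≤ A) :
    ‖dt a m‖ ≤ 3 * A * Real.sqrt (nsq m) := by
  unfold dt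
  refine (norm_sum_le _ _).trans ?_
  have h : ∀ i ∈ (Finset.univ : Finset (Fin 3)), ‖a i * (m i : ℂ)‖ ≤ A * Real.sqrt (nsq m) := by
    intro i _
    rw [norm_mul]
    have e : ‖(m i : ℂ)‖ = |(m i : ℝ)| := Complex.norm_intCast _
    rw [e]
    exact mul_le_mul (hA i) (abs_le_sqrt m i) (abs_nonneg _) ((norm_nonneg _).trans (hA i))
  refine (Finset.sum_le_card_nsmul _ _ _ h).trans (le_of_eq ?_)
  simp
  ring

theorem prj_le (m : Wv) (a : Fin 3 → ℂ) (A : ℝ) (hA : ∀ i, ‖a i‖ ≤ A) (j : Fin 3) :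
    ‖prj m a j‖ ≤ 4 * A := by
  have hA0 : 0 ≤ A := (norm_nonneg _).trans (hA j)
  unfold prj
  have e : ‖(m j : ℂ)‖ = |(m j : ℝ)| := Complex.norm_intCast _
  have h1 : ‖dt a m * (m j : ℂ) / (nsq m : ℂ)‖ ≤ 3 * A := by
    rw [norm_div, norm_mul, Complex.norm_real, Real.norm_of_nonneg (nsq_nonneg m), e]
    refine div_le_of_le_mul₀ (nsq_nonneg m) (by positivity) ?_
    calc ‖dt a m‖ * |(m j : ℝ)| ≤ (3 * A * Real.sqrt (nsq m)) * Real.sqrt (nsq m) :=
          mul_le_mul (dt_le a m A hA) (abs_le_sqrt m j) (abs_nonneg _) (by positivity)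
      _ = 3 * A * nsq m := by rw [mul_assoc, Real.mul_self_sqrt (nsq_nonneg m)]
  calc ‖a j - dt a m * (m j : ℂ) / (nsq m : ℂ)‖ ≤ ‖a j‖ + ‖dt a m * (m j : ℂ) / (nsq m : ℂ)‖ :=
        norm_sub_le _ _
    _ ≤ A + 3 * A := add_le_add (hA j) h1
    _ = 4 * A := by ring

/-- the convolution of `f` with itself -/
noncomputable def Gf (n : ℕ) (f : Wv → ℝ) (m : Wv) : ℝ := ∑ a ∈ cub n, f a * f (m - a)

theorem Gf_nonneg (n : ℕ) (f : Wv → ℝ) (hf : ∀ k, 0 ≤ f k) (m : Wv) : 0 ≤ Gf n f m :=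
  Finset.sum_nonneg fun _ _ => mul_nonneg (hf _) (hf _)

theorem conv_eq (n : ℕ) (u : Fld) (m : Wv) (j : Fin 3) :
    conv (cutg n one) u m j =
      ∑ k ∈ cub n, (cutg n one k (m - k) (-m) : ℂ) * dt (u k) (m - k) * u (m - k) j := by
  unfold conv
  refine tsum_eq_sum fun k hk => ?_
  have : cutg n one k (m - k) (-m) = 0 := by
    unfold cutg
    rw [if_neg]
    exact fun h => hk h.1
  rw [this]
  simp

theorem cutg_le (n : ℕ) (k l m : Wv) : ‖(cutg n one k l m : ℂ)‖ ≤ 1 := by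
  rw [Complex.norm_real]
  unfold cutg one
  split_ifs <;> simp

theorem conv_le {n : ℕ} {u : Fld} (hu : Adm u) (m : Wv) (j : Fin 3) :
    ‖conv (cutg n one) u m j‖ ≤ 3 * Real.sqrt (nsq m) * Gf n (fu u) m := by
  rw [conv_eq]
  unfold Gf
  rw [Finset.mul_sum]
  refine (norm_sum_le _ _).trans (Finset.sum_le_sum fun k _ => ?_)
  have h1 : dt (u k) (m - k) = dt (u k) m := by
    have h2 : dt (u k) (m - k) = dt (u k) m - dt (u k) k := by
      unfold dt
      rw [← Finset.sum_sub_distrib]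
      refine Finset.sum_congr rfl fun i _ => ?_
      simp only [Pi.sub_apply]
      push_cast
      ring
    rw [h2, hu.div k, sub_zero]
  rw [h1, norm_mul, norm_mul]
  calc ‖(cutg n one k (m - k) (-m) : ℂ)‖ * ‖dt (u k) m‖ * ‖u (m - k) j‖
      ≤ 1 * (3 * fu u k * Real.sqrt (nsq m)) * fu u (m - k) := by
        refine mul_le_mul (mul_le_mul (cutg_le n _ _ _) (dt_le _ _ _ (le_fu u k)) (norm_nonneg _)
          zero_le_one) (le_fu u _ j) (norm_nonneg _) ?_
        have := fu_nonneg u k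
        positivity
    _ = 3 * Real.sqrt (nsq m) * (fu u k * fu u (m - k)) := by ring

/-- the bound for the right-hand side -/
noncomputable def Rb (n : ℕ) (ν : ℝ) (f : Wv → ℝ) (m : Wv) : ℝ :=
  open Classical in
  if m ∈ cub n then ν * nsq m * f m + 12 * Real.sqrt (nsq m) * Gf n f m else 0

theorem Rb_nonneg (n : ℕ) {ν : ℝ} (hν : 0 ≤ ν) (f : Wv → ℝ) (hf : ∀ k, 0 ≤ f k) (m : Wv) :
    0 ≤ Rb n ν f m := by
  unfold Rb
  split_ifs
  · have h1 := nsq_nonneg m
    have h2 := hf m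
    have h3 := Gf_nonneg n f hf m
    positivity
  · exact le_rfl

theorem rhs_le {n : ℕ} {ν : ℝ} (hν : 0 ≤ ν) {u : Fld} (hu : Adm u)
    (hs : ∀ k, k ∉ cub n → u k = 0) (m : Wv) (j : Fin 3) :
    ‖rhs (cutg n one) ν 1 u m j‖ ≤ Rb n ν (fu u) m := by
  unfold Rb
  split_ifs with hm
  · unfold rhs
    rw [Real.rpow_one]
    refine (norm_sub_le _ _).trans (add_le_add ?_ ?_)
    · rw [norm_mul, norm_neg, Complex.norm_real, Real.norm_of_nonneg
        (mul_nonneg hν (nsq_nonneg m))]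
      exact mul_le_mul_of_nonneg_left (le_fu u m j) (mul_nonneg hν (nsq_nonneg m))
    · rw [norm_mul, Complex.norm_I, one_mul]
      refine (prj_le m _ _ (fun i => conv_le hu m i) j).trans (le_of_eq ?_)
      ring
  · have h1 : conv (cutg n one) u m = 0 := by
      funext i
      rw [conv_eq]
      refine Finset.sum_eq_zero fun k _ => ?_
      have : cutg n one k (m - k) (-m) = 0 := by
        unfold cutg
        rw [if_neg]
        exact fun h => hm (mem_cub_neg h.2.2)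
      rw [this]
      simp
    unfold rhs prj dt
    rw [h1, hs m hm]
    simp

theorem Tri_le {a b : Wv → Wv → ℝ} {n : ℕ} {x y z : Wv → ℂ} {X Y Z : Wv → ℝ}
    (ha : ∀ k l, |a k l| ≤ b k l) (hx : ∀ k, ‖x k‖ ≤ X k) (hy : ∀ k, ‖y k‖ ≤ Y k)
    (hz : ∀ k, ‖z k‖ ≤ Z k) :
    ‖Tri a n x y z‖ ≤ ∑ k ∈ cub n, ∑ l ∈ cub n, b k l * (X k * Y l * Z (-(k + l))) := by
  unfold Tri
  refine (norm_sum_le _ _).trans (Finset.sum_le_sum fun k _ => ?_)
  refine (norm_sum_le _ _).trans (Finset.sum_le_sum fun l _ => ?_)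
  rw [norm_mul, norm_mul, norm_mul, Complex.norm_real, Real.norm_eq_abs, mul_assoc, mul_assoc]
  have hX := (norm_nonneg _).trans (hx k)
  have hY := (norm_nonneg _).trans (hy l)
  have hb := (abs_nonneg _).trans (ha k l)
  rw [← mul_assoc (‖x k‖)]
  exact mul_le_mul (ha k l) (mul_le_mul (mul_le_mul (hx k) (hy l) (norm_nonneg _) hX)
    (hz _) (norm_nonneg _) (mul_nonneg hX hY)) (by positivity) hb

/-- injective changes of variables -/
theorem shift {n : ℕ} {H : Wv → ℝ} (h0 : ∀ k, 0 ≤ H k) (h1 : ∀ k, k ∉ cub n → H k = 0)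
    {φ : Wv → Wv} (hφ : Function.Injective φ) : ∑ k ∈ cub n, H (φ k) ≤ ∑ k ∈ cub n, H k := by
  classical
  rw [← Finset.sum_image (f := H) (g := φ) (s := cub n) (fun a _ b _ h => hφ h)]
  calc ∑ b ∈ (cub n).image φ, H b ≤ ∑ b ∈ (cub n).image φ ∪ cub n, H b :=
        Finset.sum_le_sum_of_subset_of_nonneg Finset.subset_union_left fun _ _ _ => h0 _
    _ = ∑ b ∈ cub n, H b :=
        (Finset.sum_subset Finset.subset_union_right fun b _ hb => h1 b hb).symm

/-- the sum which bounds the three parts of `dform` -/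
noncomputable def BB (n : ℕ) (ν P : ℝ) (f : Wv → ℝ) : ℝ :=
  ∑ k ∈ cub n, ∑ l ∈ cub n, mx k l (-(k + l)) ^ P * (Rb n ν f k * f l * f (-(k + l)))

theorem part2 {n : ℕ} {ν P : ℝ} {f : Wv → ℝ} :
    ∑ k ∈ cub n, ∑ l ∈ cub n, mx k l (-(k + l)) ^ P * (f k * Rb n ν f l * f (-(k + l))) =
      BB n ν P f := by
  unfold BB
  rw [Finset.sum_comm]
  refine Finset.sum_congr rfl fun k _ => Finset.sum_congr rfl fun l _ => ?_
  rw [mx_12 l k, add_comm l k, mul_comm (f l)]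

theorem part3 {n : ℕ} {ν P : ℝ} (hν : 0 ≤ ν) {f : Wv → ℝ} (hf : ∀ k, 0 ≤ f k) :
    ∑ k ∈ cub n, ∑ l ∈ cub n, mx k l (-(k + l)) ^ P * (f k * f l * Rb n ν f (-(k + l))) ≤
      BB n ν P f := by
  unfold BB
  rw [Finset.sum_comm, Finset.sum_comm (s := cub n) (t := cub n)
    (f := fun k l => mx k l (-(k + l)) ^ P * (Rb n ν f k * f l * f (-(k + l))))]
  refine Finset.sum_le_sum fun l _ => ?_
  have h := shift (n := n)
    (H := fun m => mx m l (-(m + l)) ^ P * (Rb n ν f m * f l * f (-(m + l))))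
    (fun m => mul_nonneg (Real.rpow_nonneg (mx_nonneg _ _ _) _)
      (mul_nonneg (mul_nonneg (Rb_nonneg n hν f hf m) (hf l)) (hf _)))
    (fun m hm => by
      have : Rb n ν f m = 0 := by unfold Rb; rw [if_neg hm]
      simp only [this, zero_mul, mul_zero])
    (φ := fun k => -(k + l)) (fun a b hab => by simpa using hab)
  refine le_trans (le_of_eq ?_) h
  refine Finset.sum_congr rfl fun k _ => ?_
  have e : -(-(k + l) + l) = k := by abel
  simp only [e]
  rw [mx_13 (-(k + l)) l k]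
  ring

theorem BB_le {n : ℕ} {ν P : ℝ} (hP : 0 ≤ P) (hν : 0 ≤ ν) {f : Wv → ℝ} (hf : ∀ k, 0 ≤ f k)
    (hf0 : ∀ k, k ∉ cub n → f k = 0) :
    BB n ν P f ≤ ν * (∑ k ∈ cub n, ∑ l ∈ cub n, mx k l (-(k + l)) ^ (P + 1) *
        (f k * f l * f (-(k + l)))) +
      12 * ∑ a ∈ cub n, ∑ b ∈ cub n, ∑ l ∈ cub n,
        mx (a + b) l (-(a + b + l)) ^ (P + 1 / 2) * (f a * f b * f l * f (-(a + b + l))) := by
  have h1 : BB n ν P f ≤ ∑ k ∈ cub n, ∑ l ∈ cub n, (ν * (mx k l (-(k + l)) ^ (P + 1) *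
        (f k * f l * f (-(k + l)))) + 12 * ∑ a ∈ cub n, mx k l (-(k + l)) ^ (P + 1 / 2) *
          (f a * f (k - a) * f l * f (-(k + l)))) := by
    unfold BB
    refine Finset.sum_le_sum fun k hk => Finset.sum_le_sum fun l _ => ?_
    set w := mx k l (-(k + l)) with hw
    have hw0 : 0 ≤ w := mx_nonneg _ _ _
    have hR : Rb n ν f k = ν * nsq k * f k + 12 * Real.sqrt (nsq k) * Gf n f k := by
      unfold Rb; rw [if_pos hk]
    have e1 : w ^ (P + 1) = w ^ P * w := by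
      rw [Real.rpow_add_of_nonneg hw0 hP zero_le_one, Real.rpow_one]
    have e2 : w ^ (P + 1 / 2) = w ^ P * Real.sqrt w := by
      rw [Real.rpow_add_of_nonneg hw0 hP (by norm_num), Real.sqrt_eq_rpow]
    have hwP : 0 ≤ w ^ P := Real.rpow_nonneg hw0 _
    have hG := Gf_nonneg n f hf k
    have hfk := hf k
    have hfl := hf l
    have hfm := hf (-(k + l))
    have h2 : nsq k ≤ w := le_mx1 _ _ _
    have h3 : Real.sqrt (nsq k) ≤ Real.sqrt w := Real.sqrt_le_sqrt h2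
    have e3 : ∑ a ∈ cub n, w ^ (P + 1 / 2) * (f a * f (k - a) * f l * f (-(k + l))) =
        w ^ P * Real.sqrt w * (Gf n f k * f l * f (-(k + l))) := by
      unfold Gf
      rw [e2, Finset.sum_mul, Finset.sum_mul, Finset.mul_sum]
    rw [e3, e1, hR]
    have t1 : w ^ P * (ν * nsq k * f k * f l * f (-(k + l))) ≤
        w ^ P * (ν * w * f k * f l * f (-(k + l))) := by gcongr
    have t2 : w ^ P * (12 * Real.sqrt (nsq k) * Gf n f k * f l * f (-(k + l))) ≤
        w ^ P * (12 * Real.sqrt w * Gf n f k * f l * f (-(k + l))) := by gcongr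
    calc w ^ P * ((ν * nsq k * f k + 12 * Real.sqrt (nsq k) * Gf n f k) * f l * f (-(k + l)))
        = w ^ P * (ν * nsq k * f k * f l * f (-(k + l))) +
          w ^ P * (12 * Real.sqrt (nsq k) * Gf n f k * f l * f (-(k + l))) := by ring
      _ ≤ w ^ P * (ν * w * f k * f l * f (-(k + l))) +
          w ^ P * (12 * Real.sqrt w * Gf n f k * f l * f (-(k + l))) := add_le_add t1 t2
      _ = _ := by ring
  refine h1.trans ?_
  have h2 : ∑ k ∈ cub n, ∑ l ∈ cub n, ∑ a ∈ cub n, mx k l (-(k + l)) ^ (P + 1 / 2) *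
          (f a * f (k - a) * f l * f (-(k + l))) ≤
      ∑ a ∈ cub n, ∑ b ∈ cub n, ∑ l ∈ cub n,
        mx (a + b) l (-(a + b + l)) ^ (P + 1 / 2) * (f a * f b * f l * f (-(a + b + l))) := by
    have e : ∑ k ∈ cub n, ∑ l ∈ cub n, ∑ a ∈ cub n, mx k l (-(k + l)) ^ (P + 1 / 2) *
          (f a * f (k - a) * f l * f (-(k + l))) =
        ∑ a ∈ cub n, ∑ k ∈ cub n, ∑ l ∈ cub n, mx k l (-(k + l)) ^ (P + 1 / 2) *
          (f a * f (k - a) * f l * f (-(k + l))) := by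
      rw [Finset.sum_comm (s := cub n) (t := cub n)
        (f := fun a k => ∑ l ∈ cub n, mx k l (-(k + l)) ^ (P + 1 / 2) *
          (f a * f (k - a) * f l * f (-(k + l))))]
      exact Finset.sum_congr rfl fun k _ => Finset.sum_comm
    rw [e]
    refine Finset.sum_le_sum fun a _ => ?_
    have h := shift (n := n)
      (H := fun b => ∑ l ∈ cub n,
        mx (a + b) l (-(a + b + l)) ^ (P + 1 / 2) * (f a * f b * f l * f (-(a + b + l))))
      (fun b => Finset.sum_nonneg fun l _ => mul_nonneg (Real.rpow_nonneg (mx_nonneg _ _ _) _)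
        (mul_nonneg (mul_nonneg (mul_nonneg (hf a) (hf b)) (hf l)) (hf _)))
      (fun b hb => Finset.sum_eq_zero fun l _ => by rw [hf0 b hb]; ring)
      (φ := fun k => k - a) (fun x y hxy => by simpa using hxy)
    refine le_trans (le_of_eq ?_) h
    refine Finset.sum_congr rfl fun k _ => ?_
    have e : a + (k - a) = k := by abel
    simp only [e]
  calc ∑ k ∈ cub n, ∑ l ∈ cub n, (ν * (mx k l (-(k + l)) ^ (P + 1) *
        (f k * f l * f (-(k + l)))) + 12 * ∑ a ∈ cub n, mx k l (-(k + l)) ^ (P + 1 / 2) *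
          (f a * f (k - a) * f l * f (-(k + l))))
      = ν * (∑ k ∈ cub n, ∑ l ∈ cub n, mx k l (-(k + l)) ^ (P + 1) *
          (f k * f l * f (-(k + l)))) +
        12 * ∑ k ∈ cub n, ∑ l ∈ cub n, ∑ a ∈ cub n, mx k l (-(k + l)) ^ (P + 1 / 2) *
          (f a * f (k - a) * f l * f (-(k + l))) := by
        rw [Finset.mul_sum, Finset.mul_sum, ← Finset.sum_add_distrib]
        refine Finset.sum_congr rfl fun k _ => ?_
        rw [Finset.mul_sum, Finset.mul_sum, ← Finset.sum_add_distrib]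
    _ ≤ _ := add_le_add le_rfl (mul_le_mul_of_nonneg_left h2 (by norm_num))

/-- interpolation of powers -/
theorem interp {b B ε : ℝ} (hb : 0 ≤ b) (hbB : b < B) (hε : 0 < ε) :
    ∃ C : ℝ, 0 ≤ C ∧ ∀ x : ℝ, 1 ≤ x → x ^ b ≤ ε * x ^ B + C := by
  set X : ℝ := ε ^ (-(1 / (B - b))) with hX
  have hX0 : 0 < X := Real.rpow_pos_of_pos hε _
  refine ⟨X ^ b, Real.rpow_nonneg hX0.le _, fun x hx => ?_⟩
  have hx0 : 0 < x := by linarith
  have hxB : 0 ≤ x ^ B := Real.rpow_nonneg hx0.le _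
  rcases le_total x X with h | h
  · have h1 : x ^ b ≤ X ^ b := Real.rpow_le_rpow hx0.le h hb
    have h2 : 0 ≤ ε * x ^ B := mul_nonneg hε.le hxB
    linarith
  · have hd : 0 < B - b := by linarith
    have h1 : x ^ (-(B - b)) ≤ ε := by
      calc x ^ (-(B - b)) ≤ X ^ (-(B - b)) :=
            Real.rpow_le_rpow_of_nonpos hX0 h (by linarith)
        _ = ε := by
            rw [hX, ← Real.rpow_mul hε.le]
            have : -(1 / (B - b)) * -(B - b) = 1 := by field_simp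
            rw [this, Real.rpow_one]
    have h2 : x ^ b = x ^ (-(B - b)) * x ^ B := by
      rw [← Real.rpow_add hx0]
      congr 1
      ring
    rw [h2]
    have h3 : x ^ (-(B - b)) * x ^ B ≤ ε * x ^ B := mul_le_mul_of_nonneg_right h1 hxB
    have h4 : 0 ≤ X ^ b := Real.rpow_nonneg hX0.le _
    linarith

theorem interp_sum {b B ε : ℝ} (hb : 0 ≤ b) (hbB : b < B) (hε : 0 < ε) :
    ∃ C : ℝ, 0 ≤ C ∧ ∀ (n : ℕ) (f : Wv → ℝ), f 0 = 0 →
      ∑ k ∈ cub n, nsq k ^ b * f k ^ 2 ≤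
        ε * ∑ k ∈ cub n, nsq k ^ B * f k ^ 2 + C * ∑ k ∈ cub n, f k ^ 2 := by
  obtain ⟨C, hC, h⟩ := interp hb hbB hε
  refine ⟨C, hC, fun n f hf => ?_⟩
  rw [Finset.mul_sum, Finset.mul_sum, ← Finset.sum_add_distrib]
  refine Finset.sum_le_sum fun k _ => ?_
  by_cases hk : k = 0
  · subst hk
    rw [hf]
    simp
  · have h1 := mul_le_mul_of_nonneg_right (h (nsq k) (one_le_nsq hk)) (sq_nonneg (f k))
    linarith [h1, add_mul (ε * nsq k ^ B) C (f k ^ 2), mul_assoc ε (nsq k ^ B) (f k ^ 2)]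

theorem t_RBE : Pool.Agent.U29.EU.S_RBE := by
  intro hS3 hS4 lam c₁ τ N hc hτ hτ4 s hs M ε hε
  have hs2 : (3 : ℝ) ≤ s := by exact_mod_cast hs
  set P : ℝ := (s : ℝ) + 1 / 2 - τ / 2 with hP
  have hP0 : 0 ≤ P := by rw [hP]; linarith
  set η : ℝ := (τ / 2 - 5 / 2) / 2 with hη
  have hη0 : 0 < η := by rw [hη]; linarith
  obtain ⟨C3, hC3, h3⟩ := hS3 (2 * (P + 1)) η (by linarith) hη0
  obtain ⟨C4, hC4, h4⟩ := hS4 (2 * (P + 1 / 2)) η (by linarith) hη0
  set M' : ℝ := max M 0 with hM'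
  have hM0 : 0 ≤ M' := le_max_right _ _
  set N' : ℝ := max N 0 with hN'
  have hN0 : 0 ≤ N' := le_max_right _ _
  set K3 : ℝ := 27 * c₁⁻¹ * N' * C3 * Real.sqrt M' with hK3
  set K4 : ℝ := 27 * c₁⁻¹ * 12 * C4 * M' with hK4
  have hK30 : 0 ≤ K3 := by positivity
  have hK40 : 0 ≤ K4 := by positivity
  obtain ⟨D3, hD3, i3⟩ := interp_sum (b := P + 1 + 3 / 4 + η) (B := (s : ℝ))
    (ε := ε / (2 * (K3 + 1))) (by positivity) (by rw [hP, hη]; linarith) (by positivity)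
  obtain ⟨D4, hD4, i4⟩ := interp_sum (b := P + 1 / 2 + 3 / 2 + η) (B := (s : ℝ))
    (ε := ε / (2 * (K4 + 1))) (by positivity) (by rw [hP, hη]; linarith) (by positivity)
  refine ⟨K3 * (D3 * M') + K4 * (D4 * M'), fun ν hν hνN n u hu hsup hE => ?_⟩
  have hνN' : ν ≤ N' := hνN.trans (le_max_left _ _)
  set f : Wv → ℝ := fu u with hf
  have hf0 : ∀ k, 0 ≤ f k := fu_nonneg u
  have hfz : f 0 = 0 := fu_zero hu.zero
  have hfs : ∀ k, k ∉ cub n → f k = 0 := fun k hk => fu_zero (hsup k hk)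
  have hsum : ∑ k ∈ cub n, f k ^ 2 = En 0 n u := by
    unfold En
    refine Finset.sum_congr rfl fun k _ => ?_
    rw [hf, fu_sq, pow_zero, one_mul]
  have hsumE : ∑ k ∈ cub n, nsq k ^ (s : ℝ) * f k ^ 2 = En s n u := by
    unfold En
    refine Finset.sum_congr rfl fun k _ => ?_
    rw [hf, fu_sq, Real.rpow_natCast]
  have hsM : ∑ k ∈ cub n, f k ^ 2 ≤ M' := by rw [hsum]; exact hE.trans (le_max_left _ _)
  have hs0 : 0 ≤ ∑ k ∈ cub n, f k ^ 2 := Finset.sum_nonneg fun _ _ => sq_nonneg _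
  have hEr0 : 0 ≤ En s n u := by
    rw [← hsumE]
    exact Finset.sum_nonneg fun k _ => mul_nonneg (Real.rpow_nonneg (nsq_nonneg k) _) (sq_nonneg _)
  -- the bound of `dform` by `BB`
  have hR := fun m j => rhs_le (n := n) hν hu hsup m j
  have hd : ‖dform (hnf lam c₁ τ) s n u (rhs (cutg n one) ν 1 u)‖ ≤ 27 * (c₁⁻¹ * BB n ν P f) := by
    unfold dform
    have hT : ∀ i j : Fin 3, ‖(Tri (fun k l => hnf lam c₁ τ k l (-(k + l)) *
          ((l i : ℝ) * nsq (k + l) ^ s)) n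
        (fun k => rhs (cutg n one) ν 1 u k i) (fun k => u k j) (fun k => u k j) +
      Tri (fun k l => hnf lam c₁ τ k l (-(k + l)) * ((l i : ℝ) * nsq (k + l) ^ s)) n
        (fun k => u k i) (fun k => rhs (cutg n one) ν 1 u k j) (fun k => u k j) +
      Tri (fun k l => hnf lam c₁ τ k l (-(k + l)) * ((l i : ℝ) * nsq (k + l) ^ s)) n
        (fun k => u k i) (fun k => u k j) (fun k => rhs (cutg n one) ν 1 u k j))‖ ≤
        3 * (c₁⁻¹ * BB n ν P f) := by
      intro i j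
      have hco : ∀ k l : Wv, |hnf lam c₁ τ k l (-(k + l)) * ((l i : ℝ) * nsq (k + l) ^ s)| ≤
          c₁⁻¹ * mx k l (-(k + l)) ^ P := fun k l => coef hc s i k l
      have pull : ∀ g : Wv → Wv → ℝ, ∑ k ∈ cub n, ∑ l ∈ cub n,
          c₁⁻¹ * mx k l (-(k + l)) ^ P * g k l =
          c₁⁻¹ * ∑ k ∈ cub n, ∑ l ∈ cub n, mx k l (-(k + l)) ^ P * g k l := by
        intro g
        rw [Finset.mul_sum]
        refine Finset.sum_congr rfl fun k _ => ?_
        rw [Finset.mul_sum]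
        exact Finset.sum_congr rfl fun l _ => mul_assoc _ _ _
      have b1 := Tri_le (n := n) hco (fun k => hR k i) (fun k => le_fu u k j)
        (fun k => le_fu u k j)
      have b2 := Tri_le (n := n) hco (fun k => le_fu u k i) (fun k => hR k j)
        (fun k => le_fu u k j)
      have b3 := Tri_le (n := n) hco (fun k => le_fu u k i) (fun k => le_fu u k j)
        (fun k => hR k j)
      rw [pull] at b1 b2 b3
      have c2 := part2 (n := n) (ν := ν) (P := P) (f := f)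
      have c3 := part3 (n := n) (P := P) hν hf0
      have hci : 0 ≤ c₁⁻¹ := by positivity
      rw [c2] at b2
      have b3' := b3.trans (mul_le_mul_of_nonneg_left c3 hci)
      refine (norm_add₃_le).trans ?_
      have b1' : _ ≤ c₁⁻¹ * BB n ν P f := b1
      linarith
    refine (norm_sum_le _ _).trans ?_
    refine (Finset.sum_le_sum fun i _ => (norm_sum_le _ _).trans
      (Finset.sum_le_sum fun j _ => hT i j)).trans (le_of_eq ?_)
    simp
    ring
  have hB := BB_le (n := n) (P := P) hP0 hν hf0 hfs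
  have a3 := h3 n f hf0 hfz hfs
  have a4 := h4 n f hf0 hfz hfs
  have q3 : 2 * (P + 1) / 2 = P + 1 := by ring
  have q4 : 2 * (P + 1 / 2) / 2 = P + 1 / 2 := by ring
  rw [q3] at a3
  rw [q4] at a4
  have j3 := i3 n f hfz
  have j4 := i4 n f hfz
  rw [hsumE] at j3 j4
  have hsq : Real.sqrt (∑ k ∈ cub n, f k ^ 2) ≤ Real.sqrt M' := Real.sqrt_le_sqrt hsM
  set S3 : ℝ := ∑ k ∈ cub n, nsq k ^ (P + 1 + 3 / 4 + η) * f k ^ 2 with hS3'
  set S4 : ℝ := ∑ k ∈ cub n, nsq k ^ (P + 1 / 2 + 3 / 2 + η) * f k ^ 2 with hS4'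
  have hS30 : 0 ≤ S3 :=
    Finset.sum_nonneg fun k _ => mul_nonneg (Real.rpow_nonneg (nsq_nonneg k) _) (sq_nonneg _)
  have hS40 : 0 ≤ S4 :=
    Finset.sum_nonneg fun k _ => mul_nonneg (Real.rpow_nonneg (nsq_nonneg k) _) (sq_nonneg _)
  have a3' := a3.trans (mul_le_mul_of_nonneg_right (mul_le_mul_of_nonneg_left hsq hC3) hS30)
  have a4' := a4.trans (mul_le_mul_of_nonneg_right (mul_le_mul_of_nonneg_left hsM hC4) hS40)
  have hci : 0 < c₁⁻¹ := by positivity
  have main : ‖dform (hnf lam c₁ τ) s n u (rhs (cutg n one) ν 1 u)‖ ≤ K3 * S3 + K4 * S4 := by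
    refine hd.trans ?_
    have h5' : BB n ν P f ≤ ν * (C3 * Real.sqrt M' * S3) + 12 * (C4 * M' * S4) :=
      hB.trans (add_le_add (mul_le_mul_of_nonneg_left a3' hν)
        (mul_le_mul_of_nonneg_left a4' (by norm_num)))
    have h5'' : ν * (C3 * Real.sqrt M' * S3) ≤ N' * (C3 * Real.sqrt M' * S3) :=
      mul_le_mul_of_nonneg_right hνN' (by positivity)
    have h5 : BB n ν P f ≤ N' * (C3 * Real.sqrt M' * S3) + 12 * (C4 * M' * S4) := by linarith
    have h6 := mul_le_mul_of_nonneg_left h5 hci.le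
    calc 27 * (c₁⁻¹ * BB n ν P f) ≤
          27 * (c₁⁻¹ * (N' * (C3 * Real.sqrt M' * S3) + 12 * (C4 * M' * S4))) := by linarith
      _ = K3 * S3 + K4 * S4 := by rw [hK3, hK4]; ring
  have z3 : K3 * S3 ≤ ε / 2 * En s n u + K3 * (D3 * M') := by
    have h7 : S3 ≤ ε / (2 * (K3 + 1)) * En s n u + D3 * M' :=
      j3.trans (add_le_add le_rfl (mul_le_mul_of_nonneg_left hsM hD3))
    have h8 := mul_le_mul_of_nonneg_left h7 hK30
    have h9 : K3 * (ε / (2 * (K3 + 1))) ≤ ε / 2 := by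
      rw [← mul_div_assoc, div_le_iff₀ (by positivity)]
      nlinarith
    have h10 := mul_le_mul_of_nonneg_right h9 hEr0
    linarith [h8, h10, mul_add K3 (ε / (2 * (K3 + 1)) * En s n u) (D3 * M'),
      mul_assoc K3 (ε / (2 * (K3 + 1))) (En s n u)]
  have z4 : K4 * S4 ≤ ε / 2 * En s n u + K4 * (D4 * M') := by
    have h7 : S4 ≤ ε / (2 * (K4 + 1)) * En s n u + D4 * M' :=
      j4.trans (add_le_add le_rfl (mul_le_mul_of_nonneg_left hsM hD4))
    have h8 := mul_le_mul_of_nonneg_left h7 hK40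
    have h9 : K4 * (ε / (2 * (K4 + 1))) ≤ ε / 2 := by
      rw [← mul_div_assoc, div_le_iff₀ (by positivity)]
      nlinarith
    have h10 := mul_le_mul_of_nonneg_right h9 hEr0
    linarith [h8, h10, mul_add K4 (ε / (2 * (K4 + 1)) * En s n u) (D4 * M'),
      mul_assoc K4 (ε / (2 * (K4 + 1))) (En s n u)]
  linarith

end Pool.Agent.U29.EU.RBx
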