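import Pool.Agent.U29.EU.Asm2
import Pool.Agent.U29.EU.APRG
import Pool.Agent.U448.RT.SUM
import Pool.Agent.N983.RT.ALG
import Pool.Agent.U913.RT.RHS
import Pool.Agent.U913.EU.ODEE
import Pool.Agent.U668.EU.CMPE
import Pool.Agent.U283.EU.UNQE
import Pool.Agent.U139.EU.LIM
import Pool.Agent.U401.DS.S3
import Pool.Agent.U460.DS.S4
import Pool.Agent.U643.DS.DQ
import Pool.Agent.U354.EU.NBE
import Pool.Agent.U981.EU.SLAB
import Pool.Agent.U324.EU.VEC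
import Pool.Agent.U473.EU.CNT
import Pool.Agent.U908.EU.AE
import Pool.Agent.U29.EU.QBE
import Pool.Agent.U29.EU.RBE

set_option autoImplicit false

/-! Project EU: the parts put together. -/

namespace Pool.Agent.U29.EU

open MeasureTheory Pool.Agent.N983.RT Pool.Agent.U136.DS

/-- for all but finitely many triads `k + l + m = 0` of nonzero wave vectors
`|λ_k + λ_l + λ_m| ≥ c max(|k|, |l|, |m|) ^ τ` -/
def FewRes (lam : Wv → ℝ) (c τ : ℝ) : Prop :=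
  {p : Wv × Wv | p.1 ≠ 0 ∧ p.2 ≠ 0 ∧ p.1 + p.2 ≠ 0 ∧
    |lam p.1 + lam p.2 + lam (-(p.1 + p.2))| <
      c * max (nsq p.1) (max (nsq p.2) (nsq (p.1 + p.2))) ^ (τ / 2)}.Finite

theorem mem_cub_iff (R : ℕ) (k : Wv) : k ∈ cub R ↔ ∀ i, |k i| ≤ (R : ℤ) := by
  unfold cub
  simp only [Fintype.mem_piFinset, Finset.mem_Icc, abs_le]

theorem cub_mono {R R' : ℕ} (h : R ≤ R') {k : Wv} (hk : k ∈ cub R) : k ∈ cub R' := by
  rw [mem_cub_iff] at hk ⊢
  intro i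
  have h' : (R : ℤ) ≤ R' := by exact_mod_cast h
  exact (hk i).trans h'

theorem exists_cub (k : Wv) : ∃ R, k ∈ cub R := by
  refine ⟨∑ i, (k i).natAbs, ?_⟩
  rw [mem_cub_iff]
  intro i
  have h : (k i).natAbs ≤ ∑ i, (k i).natAbs :=
    Finset.single_le_sum (f := fun i => (k i).natAbs) (fun _ _ => Nat.zero_le _)
      (Finset.mem_univ i)
  rw [Int.abs_eq_natAbs]
  exact_mod_cast h

theorem finN_of_few {lam : Wv → ℝ} {c τ : ℝ} (h : FewRes lam c τ) : FinN lam c τ := by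
  have h1 : ∀ S : Set (Wv × Wv), S.Finite → ∃ R : ℕ, ∀ p ∈ S, p.1 ∈ cub R ∧ p.2 ∈ cub R := by
    intro S hS
    induction S, hS using Set.Finite.induction_on with
    | empty => exact ⟨0, fun p hp => absurd hp (Set.notMem_empty p)⟩
    | @insert a S _ _ ih =>
      obtain ⟨R, hR⟩ := ih
      obtain ⟨R1, h1⟩ := exists_cub a.1
      obtain ⟨R2, h2⟩ := exists_cub a.2
      refine ⟨max R (max R1 R2), fun p hp => ?_⟩
      rcases Set.mem_insert_iff.1 hp with rfl | hp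
      · exact ⟨cub_mono ((le_max_left _ _).trans (le_max_right _ _)) h1,
          cub_mono ((le_max_right _ _).trans (le_max_right _ _)) h2⟩
      · exact ⟨cub_mono (le_max_left _ _) (hR p hp).1, cub_mono (le_max_left _ _) (hR p hp).2⟩
  obtain ⟨R, hR⟩ := h1 _ h
  refine ⟨R, fun k l hn => hR (k, l) ?_⟩
  unfold near at hn
  split_ifs at hn with h2
  · obtain ⟨a1, a2, a3, a4⟩ := h2
    refine ⟨a1, a2, fun h0 => a3 (by simp [h0]), ?_⟩
    have e : mx k l (-(k + l)) = max (nsq k) (max (nsq l) (nsq (k + l))) := by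
      unfold mx
      rw [asm_nsq_neg]
    rw [← e]
    exact a4
  · exact absurd rfl hn

theorem main :
    (∀ lam : Wv → ℝ, Disp lam → ∀ c τ : ℝ, 0 < c → 5 < τ → FewRes lam c τ → GWPG lam) ∧
    ∀ d : ℕ, Odd d → 13 ≤ d → ∀ lam : Wv → ℝ, Disp lam →
      ∀ᵐ a : Mi d → ℝ, ∀ ε : ℝ, ε ≠ 0 → GWPG (fun k => ε * (lam k + pol a k)) := by
  have h := asmG Pool.Agent.U448.RT.t_SUM Pool.Agent.N983.RT.t_ALG Pool.Agent.U913.RT.t_RHS
    Pool.Agent.U913.EU.t_ODEE Pool.Agent.U668.EU.t_CMPE Pool.Agent.U283.EU.t_UNQE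
    Pool.Agent.U139.EU.t_LIM Pool.Agent.U401.DS.t_S3 Pool.Agent.U460.DS.t_S4
    QBx.t_QBE RBx.t_RBE Pool.Agent.U136.DS.t_DQ
    Pool.Agent.U354.EU.t_NBE t_APRG Pool.Agent.U981.EU.SLAB.t_SLAB
    Pool.Agent.U324.EU.VEC.t_VEC Pool.Agent.U473.EU.CNT.t_CNT t_AE
  refine ⟨fun lam h1 c τ h2 h3 h4 => h.1 lam c τ h1 h2 h3 (finN_of_few h4),
    fun d hd h13 lam hlam => ?_⟩
  have h13' : (13 : ℝ) ≤ d := by exact_mod_cast h13
  filter_upwards [h.2.1 d hd (by omega) lam] with a ha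
  intro ε hε
  exact h.1 _ |ε| (11 / 2) (disp_smul' _ ε (disp_add _ _ hlam (disp_pol hd a))) (abs_pos.2 hε)
    (by norm_num) (fin_smul _ ε _ hε (ha 1 (11 / 2) (by linarith)))

end Pool.Agent.U29.EU
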