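import Pool.Agent.U29.EU.Stm

set_option autoImplicit false

/-! Project EU: statements with growth bounds (the Sobolev norms grow slower than `e ^ (δ t)` for
every `δ > 0`, uniformly in the viscosity). -/

namespace Pool.Agent.U29.EU

open MeasureTheory Pool.Agent.N983.RT Pool.Agent.U136.DS

/-- (APRG) a priori bounds for the truncated systems, uniform in the viscosity, with growth rate.
It replaces (APRE). -/
def S_APRG : Prop := S_SUM → S_ALG → ∀ (lam : Wv → ℝ) (c₁ τ N : ℝ), Disp lam → 0 < c₁ →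
  -- QBE, RBE, NBE for `lam`
  (∀ s : ℕ, 3 ≤ s → ∀ M ε : ℝ, 0 < ε → ∃ C : ℝ, ∀ ν, 0 ≤ ν → ν ≤ N → ∀ (n : ℕ) (u : Fld), Adm u →
    (∀ k, k ∉ cub n → u k = 0) → En 0 n u ≤ M →
      ‖form (hnf lam c₁ τ) s n u‖ ≤ ε * En s n u + C ∧
      ‖dform (hnf lam c₁ τ) s n u (rhs (cutg n one) ν 1 u)‖ ≤ ε * En s n u + C ∧
      ‖form (near lam c₁ τ) s n u‖ ≤ C) →
  S_DQ →
  ∀ u₀ : Fld, Adm u₀ → Rapid u₀ → ∀ (s : ℕ) (δ : ℝ), 0 < δ → ∃ C : ℝ, 0 ≤ C ∧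
    ∀ ν, 0 ≤ ν → ν ≤ N → ∀ (n : ℕ) (u : ℝ → Fld), IsSolD (cutg n one) ν lam u → u 0 = cut n u₀ →
      (∀ t, 0 ≤ t → ∀ k, k ∉ cub n → u t k = 0) → ∀ t, 0 ≤ t → En s n (u t) ≤ C * Real.exp (δ * t)

end Pool.Agent.U29.EU
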